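import Mathlib

/-!
# Semi-saturated subgraphs of the hypercube for the square have at least `(3 - o(1)) 2 ^ n` edges

Every subgraph `G` of the hypercube `Q_n` such that the addition of any missing edge of `Q_n` creates
a new square has at least `(3 - o(1)) 2 ^ n` edges.

Proof. Call a vertex small if its degree is at most `K`, and big if its degree is at least `b`
(`K` constant, `b` about `√n`). A small vertex `x` needs, for every direction `i` missing at `x`, a
neighbour `u` in `G` such that `u` has an edge `uw` in direction `i` and `w` is joined to the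
neighbour of `x` in direction `i`. By double counting, for almost all small `x` almost all
directions are served with `u` and `w` both big. So the numbers `β(u)` of big neighbours of the
big neighbours `u` of `x` add up to at least `(1 - o(1)) n`. Every big `u` distributes
`s(u) + β(u) / 2` to its `s(u)` small neighbours, and since `s(u) + β(u) ≤ n` each of them gets at
least `1 / 2 + 2 β(u) / n`; it follows that almost every small vertex gets at least `3 - o(1)`.
-/

set_option autoImplicit false

open Finset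

namespace Pool.Agent.Results.MP_71830d_co.SemiSatThree

/-- The hypercube graph `Q_n` on `{0,1}^n`: two vertices are adjacent exactly when they differ in
one coordinate. -/
def Q (n : ℕ) : SimpleGraph (Fin n → Bool) where
  Adj x y := hammingDist x y = 1
  symm := ⟨fun x y h => by rw [hammingDist_comm]; exact h⟩
  loopless := ⟨fun x h => by simp at h⟩

/-- `G` is a `(Q_n, Q_2)`-semi-saturated graph: a subgraph of `Q_n` such that for every edge `xy` of
`Q_n` which is not in `G` there is a 4-cycle `x y z w` whose edges other than `xy` are in `G`. -/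
def SemiSat {n : ℕ} (G : SimpleGraph (Fin n → Bool)) : Prop :=
  G ≤ Q n ∧ ∀ x y, (Q n).Adj x y → ¬ G.Adj x y →
    ∃ z w, x ≠ z ∧ y ≠ w ∧ G.Adj y z ∧ G.Adj z w ∧ G.Adj w x

/-- The number `s-sat(Q_n, Q_2)`: the least number of edges of a `(Q_n, Q_2)`-semi-saturated graph. -/
noncomputable def sSat (n : ℕ) : ℕ :=
  sInf {m : ℕ | ∃ G : SimpleGraph (Fin n → Bool), SemiSat G ∧ G.edgeSet.ncard = m}

/-! ### The abstract counting argument -/

section Core

open Classical

variable {V : Type} [Fintype V] {n : ℕ} (f : V → Fin n → V) (g : V → Fin n → Prop)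

/-- degree -/
noncomputable def deg (v : V) : ℕ := (univ.filter fun i => g v i).card

/-- number of small neighbours -/
noncomputable def sm (K : ℕ) (u : V) : ℕ :=
  (univ.filter fun j => g u j ∧ deg g (f u j) ≤ K).card

/-- number of big neighbours -/
noncomputable def bt (b : ℕ) (u : V) : ℕ :=
  (univ.filter fun j => g u j ∧ b ≤ deg g (f u j)).card

/-- the number of pairs `(j, i)` served through a vertex which is not big -/
noncomputable def tau (b : ℕ) (x : V) : ℕ :=
  ∑ j : Fin n, ∑ i : Fin n, if g x j ∧ g (f x j) i ∧ g (f (f x j) i) j ∧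
    ¬ b ≤ deg g (f (f x j) i) then 1 else 0

/-- the big neighbours of `x` -/
noncomputable def NB (b : ℕ) (x : V) : Finset (Fin n) :=
  univ.filter fun j => g x j ∧ b ≤ deg g (f x j)

variable {f g}

/-- substitution along a direction -/
lemma sum_flip (hf : ∀ v i, f (f v i) i = v) (j : Fin n) {M : Type} [AddCommMonoid M] (F : V → M) :
    ∑ x, F (f x j) = ∑ x, F x := by
  refine Fintype.sum_bijective (fun x => f x j) ?_ _ _ (fun x => rfl)
  exact Function.Involutive.bijective (fun x => hf x j)

omit [Fintype V] in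
lemma claimA (K b : ℕ)
    (hss : ∀ x i, ¬ g x i → ∃ j, g x j ∧ g (f x j) i ∧ g (f (f x j) i) j)
    {x : V} (hx : deg g x ≤ K) :
    n ≤ K + K * b + tau f g b x + ∑ j ∈ NB f g b x, bt f g b (f x j) := by
  have h1 : (univ : Finset (Fin n)) ⊆ (univ.filter fun i => g x i) ∪
      (univ.filter fun j => g x j).biUnion (fun j => univ.filter fun i => g (f x j) i ∧
        g (f (f x j) i) j) := by
    intro i _
    by_cases h : g x i
    · exact mem_union_left _ (by simpa using h)
    · obtain ⟨j, h2, h3, h4⟩ := hss x i h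
      apply mem_union_right
      rw [mem_biUnion]
      exact ⟨j, by simpa using h2, by simp [h3, h4]⟩
  have h2 : n ≤ deg g x + ∑ j ∈ univ.filter (fun j => g x j),
      (univ.filter fun i => g (f x j) i ∧ g (f (f x j) i) j).card := by
    calc n = (univ : Finset (Fin n)).card := by simp
      _ ≤ _ := card_le_card h1
      _ ≤ _ := card_union_le _ _
      _ ≤ _ := Nat.add_le_add_left card_biUnion_le _
  have h3 : ∀ j ∈ univ.filter (fun j => g x j),
      (univ.filter fun i => g (f x j) i ∧ g (f (f x j) i) j).card ≤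
      b + (if b ≤ deg g (f x j) then bt f g b (f x j) else 0) +
      ∑ i : Fin n, if g x j ∧ g (f x j) i ∧ g (f (f x j) i) j ∧
        ¬ b ≤ deg g (f (f x j) i) then 1 else 0 := by
    intro j hj
    have hj' : g x j := by simpa using hj
    by_cases hb : b ≤ deg g (f x j)
    · rw [if_pos hb]
      have : (univ.filter fun i => g (f x j) i ∧ g (f (f x j) i) j) ⊆
          (univ.filter fun i => g (f x j) i ∧ b ≤ deg g (f (f x j) i)) ∪
          (univ.filter fun i => g x j ∧ g (f x j) i ∧ g (f (f x j) i) j ∧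
        ¬ b ≤ deg g (f (f x j) i)) := by
        intro i hi
        simp only [mem_filter, mem_univ, true_and, mem_union] at hi ⊢
        by_cases h : b ≤ deg g (f (f x j) i)
        · exact Or.inl ⟨hi.1, h⟩
        · exact Or.inr ⟨hj', hi.1, hi.2, h⟩
      have h4 := (card_le_card this).trans (card_union_le _ _)
      rw [← card_filter]
      unfold bt
      omega
    · rw [if_neg hb]
      have h5 : (univ.filter fun i => g (f x j) i ∧ g (f (f x j) i) j).card ≤ deg g (f x j) := by
        apply card_le_card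
        intro i hi
        simp only [mem_filter, mem_univ, true_and] at hi ⊢
        exact hi.1
      omega
  have h4 := Finset.sum_le_sum h3
  rw [Finset.sum_add_distrib, Finset.sum_add_distrib, Finset.sum_const] at h4
  have h5 : ∑ j ∈ univ.filter (fun j => g x j),
      (if b ≤ deg g (f x j) then bt f g b (f x j) else 0) =
      ∑ j ∈ NB f g b x, bt f g b (f x j) := by
    rw [← Finset.sum_filter, Finset.filter_filter]
    rfl
  have h6 : ∑ j ∈ univ.filter (fun j => g x j), (∑ i : Fin n, if g x j ∧ g (f x j) i ∧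
      g (f (f x j) i) j ∧ ¬ b ≤ deg g (f (f x j) i) then 1 else 0) ≤ tau f g b x := by
    unfold tau
    exact Finset.sum_le_univ_sum_of_nonneg (fun _ => Nat.zero_le _)
  have h7 : (univ.filter (fun j => g x j)).card • b ≤ K * b := by
    rw [smul_eq_mul]
    exact Nat.mul_le_mul_right _ hx
  rw [h5] at h4
  omega

lemma claimB (b : ℕ) (hf : ∀ v i, f (f v i) i = v) (hg : ∀ v i, g (f v i) i ↔ g v i) :
    ∑ x, tau f g b x ≤ b * ∑ v, deg g v := by
  unfold tau
  rw [Finset.sum_comm]
  have h1 : ∀ j : Fin n, ∑ x, ∑ i : Fin n, (if g x j ∧ g (f x j) i ∧ g (f (f x j) i) j ∧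
      ¬ b ≤ deg g (f (f x j) i) then 1 else 0) ≤
      ∑ i : Fin n, ∑ w, (if g w i ∧ g w j ∧ ¬ b ≤ deg g w then 1 else 0) := by
    intro j
    rw [Finset.sum_comm]
    apply Finset.sum_le_sum
    intro i _
    rw [← sum_flip hf i (fun w => if g w i ∧ g w j ∧ ¬ b ≤ deg g w then 1 else 0),
      ← sum_flip hf j (fun w => if g (f w i) i ∧ g (f w i) j ∧ ¬ b ≤ deg g (f w i) then 1 else 0)]
    apply Finset.sum_le_sum
    intro x _
    by_cases h : g x j ∧ g (f x j) i ∧ g (f (f x j) i) j ∧ ¬ b ≤ deg g (f (f x j) i)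
    · rw [if_pos h, if_pos ⟨(hg _ _).2 h.2.1, h.2.2.1, h.2.2.2⟩]
    · rw [if_neg h]; exact Nat.zero_le _
  refine (Finset.sum_le_sum fun j _ => h1 j).trans ?_
  have h2 : ∀ w : V, ∑ j : Fin n, ∑ i : Fin n, (if g w i ∧ g w j ∧ ¬ b ≤ deg g w then 1 else 0) ≤
      b * deg g w := by
    intro w
    by_cases hb : b ≤ deg g w
    · have : ∑ j : Fin n, ∑ i : Fin n, (if g w i ∧ g w j ∧ ¬ b ≤ deg g w then 1 else 0) = 0 := by
        apply Finset.sum_eq_zero; intro j _
        apply Finset.sum_eq_zero; intro i _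
        rw [if_neg]; tauto
      rw [this]; exact Nat.zero_le _
    · have h3 : ∀ j : Fin n, ∑ i : Fin n, (if g w i ∧ g w j ∧ ¬ b ≤ deg g w then 1 else 0) ≤
          if g w j then b else 0 := by
        intro j
        by_cases hj : g w j
        · rw [if_pos hj]
          have : ∑ i : Fin n, (if g w i ∧ g w j ∧ ¬ b ≤ deg g w then 1 else 0) ≤ deg g w := by
            unfold deg
            rw [card_filter]
            apply Finset.sum_le_sum
            intro i _
            by_cases hi : g w i
            · rw [if_pos hi]; split_ifs <;> omega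
            · rw [if_neg (by tauto)]; exact Nat.zero_le _
          omega
        · rw [if_neg hj]
          apply le_of_eq
          apply Finset.sum_eq_zero; intro i _
          rw [if_neg]; tauto
      refine (Finset.sum_le_sum fun j _ => h3 j).trans ?_
      rw [← Finset.sum_filter, Finset.sum_const, smul_eq_mul, mul_comm]
      rfl
  calc ∑ j : Fin n, ∑ i : Fin n, ∑ w, (if g w i ∧ g w j ∧ ¬ b ≤ deg g w then 1 else 0)
      = ∑ j : Fin n, ∑ w, ∑ i : Fin n, (if g w i ∧ g w j ∧ ¬ b ≤ deg g w then 1 else 0) := by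
        apply Finset.sum_congr rfl; intro j _; rw [Finset.sum_comm]
    _ = ∑ w, ∑ j : Fin n, ∑ i : Fin n, (if g w i ∧ g w j ∧ ¬ b ≤ deg g w then 1 else 0) := by
        rw [Finset.sum_comm]
    _ ≤ ∑ w, b * deg g w := Finset.sum_le_sum fun w _ => h2 w
    _ = b * ∑ v, deg g v := by rw [Finset.mul_sum]

lemma claimC (K b : ℕ) (hf : ∀ v i, f (f v i) i = v) (hg : ∀ v i, g (f v i) i ↔ g v i)
    (F : V → ℝ) :
    ∑ x ∈ univ.filter (fun x => deg g x ≤ K), ∑ j ∈ NB f g b x, F (f x j) =
    ∑ u ∈ univ.filter (fun u => b ≤ deg g u), (sm f g K u : ℝ) * F u := by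
  have h1 : ∀ x : V, ∑ j ∈ NB f g b x, F (f x j) =
      ∑ j : Fin n, if g x j ∧ b ≤ deg g (f x j) then F (f x j) else 0 := by
    intro x
    unfold NB
    rw [Finset.sum_filter]
  have h2 : ∀ u : V, (sm f g K u : ℝ) * F u =
      ∑ j : Fin n, if g u j ∧ deg g (f u j) ≤ K then F u else 0 := by
    intro u
    unfold sm
    rw [← Finset.sum_filter, Finset.sum_const, nsmul_eq_mul]
  rw [Finset.sum_filter, Finset.sum_filter]
  calc ∑ x, (if deg g x ≤ K then ∑ j ∈ NB f g b x, F (f x j) else 0)
      = ∑ x, ∑ j : Fin n, (if deg g x ≤ K ∧ g x j ∧ b ≤ deg g (f x j) then F (f x j) else 0) := by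
        apply Finset.sum_congr rfl; intro x _
        rw [h1]
        by_cases hx : deg g x ≤ K
        · simp [hx]
        · simp [hx]
    _ = ∑ j : Fin n, ∑ x, (if deg g x ≤ K ∧ g x j ∧ b ≤ deg g (f x j) then F (f x j) else 0) := by
        rw [Finset.sum_comm]
    _ = ∑ j : Fin n, ∑ u, (if deg g (f u j) ≤ K ∧ g u j ∧ b ≤ deg g u then F u else 0) := by
        apply Finset.sum_congr rfl; intro j _
        rw [← sum_flip hf j (fun u => if deg g (f u j) ≤ K ∧ g u j ∧ b ≤ deg g u then F u else 0)]
        apply Finset.sum_congr rfl; intro x _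
        simp only [hf, hg]
    _ = ∑ u, ∑ j : Fin n, (if deg g (f u j) ≤ K ∧ g u j ∧ b ≤ deg g u then F u else 0) := by
        rw [Finset.sum_comm]
    _ = ∑ u, (if b ≤ deg g u then (sm f g K u : ℝ) * F u else 0) := by
        apply Finset.sum_congr rfl; intro u _
        rw [h2]
        by_cases hu : b ≤ deg g u
        · simp only [hu, and_true, if_true]
          apply Finset.sum_congr rfl; intro j _
          by_cases h : g u j <;> by_cases h' : deg g (f u j) ≤ K <;> simp [h, h']
        · simp [hu]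

omit [Fintype V] in
lemma sm_add_bt {K b : ℕ} (hKb : K < b) (u : V) : sm f g K u + bt f g b u ≤ deg g u := by
  unfold sm bt deg
  rw [← card_union_of_disjoint]
  · apply card_le_card
    intro i hi
    simp only [mem_union, mem_filter, mem_univ, true_and] at hi ⊢
    tauto
  · rw [Finset.disjoint_filter]
    intro i _ h1 h2
    omega

omit [Fintype V] in
lemma deg_le (u : V) : deg g u ≤ n := by
  unfold deg
  exact (card_le_univ _).trans (by simp)

lemma claimD {K b : ℕ} (hKb : K < b) (hf : ∀ v i, f (f v i) i = v)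
    (hg : ∀ v i, g (f v i) i ↔ g v i) :
    2 * ∑ u ∈ univ.filter (fun u => b ≤ deg g u), (sm f g K u : ℝ) +
      ∑ u ∈ univ.filter (fun u => b ≤ deg g u), (bt f g b u : ℝ) ≤ ∑ v, (deg g v : ℝ) := by
  have h1 := claimC (f := f) (g := g) K b hf hg (fun _ => 1)
  simp only [mul_one, Finset.sum_const, nsmul_eq_mul] at h1
  have h2 : ∑ x ∈ univ.filter (fun x => deg g x ≤ K), ((NB f g b x).card : ℝ) ≤
      ∑ x ∈ univ.filter (fun x => deg g x ≤ K), (deg g x : ℝ) := by
    apply Finset.sum_le_sum
    intro x _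
    have : (NB f g b x).card ≤ deg g x := by
      apply card_le_card
      intro i hi
      simp only [NB, mem_filter, mem_univ, true_and] at hi ⊢
      exact hi.1
    exact_mod_cast this
  have h3 : ∑ u ∈ univ.filter (fun u => b ≤ deg g u), (sm f g K u : ℝ) +
      ∑ u ∈ univ.filter (fun u => b ≤ deg g u), (bt f g b u : ℝ) ≤
      ∑ u ∈ univ.filter (fun u => b ≤ deg g u), (deg g u : ℝ) := by
    rw [← Finset.sum_add_distrib]
    apply Finset.sum_le_sum
    intro u _
    exact_mod_cast sm_add_bt (f := f) (g := g) hKb u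
  have h4 : ∑ x ∈ univ.filter (fun x => deg g x ≤ K), (deg g x : ℝ) +
      ∑ u ∈ univ.filter (fun u => b ≤ deg g u), (deg g u : ℝ) ≤ ∑ v, (deg g v : ℝ) := by
    rw [← Finset.sum_union]
    · apply Finset.sum_le_univ_sum_of_nonneg
      intro v; positivity
    · rw [Finset.disjoint_filter]
      intro i _ h1 h2
      omega
  linarith

omit [Fintype V] in
lemma pointwise {K b : ℕ} (hKb : K < b) (hn : 0 < n) (hf : ∀ v i, f (f v i) i = v)
    (hg : ∀ v i, g (f v i) i ↔ g v i)
    (hss : ∀ x i, ¬ g x i → ∃ j, g x j ∧ g (f x j) i ∧ g (f (f x j) i) j)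
    {x : V} (hx : deg g x ≤ K) :
    3 - 15 * (((K : ℝ) + K * b + tau f g b x) / n) ≤
      ∑ j ∈ NB f g b x, (1 + (bt f g b (f x j) : ℝ) / (2 * sm f g K (f x j))) := by
  have hA := claimA (f := f) (g := g) K b hss hx
  have hn' : (0 : ℝ) < n := by exact_mod_cast hn
  have hA' : (n : ℝ) ≤ ((K : ℝ) + K * b + tau f g b x) +
      ∑ j ∈ NB f g b x, (bt f g b (f x j) : ℝ) := by
    have : ((n : ℕ) : ℝ) ≤ ((K + K * b + tau f g b x +
      ∑ j ∈ NB f g b x, bt f g b (f x j) : ℕ) : ℝ) := by exact_mod_cast hA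
    push_cast at this
    linarith
  set q : ℝ := ((K : ℝ) + K * b + tau f g b x) / n with hq
  have hq0 : 0 ≤ q := by positivity
  have hqn : ((K : ℝ) + K * b + tau f g b x) = q * n := by
    rw [hq]; field_simp
  rw [hqn] at hA'
  -- facts about neighbours
  have hs1 : ∀ j ∈ NB f g b x, (1 : ℝ) ≤ sm f g K (f x j) := by
    intro j hj
    simp only [NB, mem_filter, mem_univ, true_and] at hj
    have : 0 < sm f g K (f x j) := by
      unfold sm
      rw [Finset.card_pos]
      refine ⟨j, ?_⟩
      simp only [mem_filter, mem_univ, true_and, hf, hg]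
      exact ⟨hj.1, hx⟩
    exact_mod_cast this
  have hsb : ∀ u : V, (sm f g K u : ℝ) + bt f g b u ≤ n := by
    intro u
    exact_mod_cast (sm_add_bt (f := f) (g := g) hKb u).trans (deg_le u)
  have hnn : 0 ≤ ∑ j ∈ NB f g b x, (1 + (bt f g b (f x j) : ℝ) / (2 * sm f g K (f x j))) := by
    apply Finset.sum_nonneg
    intro j _
    positivity
  by_cases hq5 : 1 / 5 ≤ q
  · linarith
  push Not at hq5
  have htan : ∀ j ∈ NB f g b x, 1 / 2 + 2 * ((bt f g b (f x j) : ℝ) / n) ≤
      1 + (bt f g b (f x j) : ℝ) / (2 * sm f g K (f x j)) := by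
    intro j hj
    have h1 := hs1 j hj
    have h2 := hsb (f x j)
    set s : ℝ := (sm f g K (f x j) : ℝ)
    set β : ℝ := (bt f g b (f x j) : ℝ)
    have hβ : 0 ≤ β := by positivity
    have hs : 0 < s := by linarith
    have h3 : β / n ≤ β / (s + β) := by
      apply div_le_div_of_nonneg_left hβ (by positivity) h2
    have h4 : 1 / 2 + 2 * (β / (s + β)) ≤ 1 + β / (2 * s) := by
      rw [← sub_nonneg]
      have : 1 + β / (2 * s) - (1 / 2 + 2 * (β / (s + β))) = (s - β) ^ 2 / (2 * s * (s + β)) := by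
        field_simp
        ring
      rw [this]
      positivity
    linarith
  have hcard : (NB f g b x).Nonempty := by
    by_contra hne
    rw [Finset.not_nonempty_iff_eq_empty] at hne
    rw [hne, Finset.sum_empty] at hA'
    nlinarith
  rcases Nat.lt_or_ge 1 (NB f g b x).card with h2 | h2
  · have h3 := Finset.sum_le_sum htan
    rw [Finset.sum_add_distrib, Finset.sum_const, ← Finset.mul_sum, ← Finset.sum_div,
      nsmul_eq_mul] at h3
    have h4 : 1 - q ≤ (∑ j ∈ NB f g b x, (bt f g b (f x j) : ℝ)) / n := by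
      rw [le_div_iff₀ hn']
      linarith
    have h5 : (2 : ℝ) ≤ (NB f g b x).card := by exact_mod_cast h2
    linarith
  · have h3 : (NB f g b x).card = 1 := le_antisymm h2 (Finset.card_pos.2 hcard)
    obtain ⟨j, hj⟩ := Finset.card_eq_one.1 h3
    have hjm : j ∈ NB f g b x := by rw [hj]; simp
    have h1 := hs1 j hjm
    have h2 := hsb (f x j)
    rw [hj, Finset.sum_singleton] at hA' ⊢
    set s : ℝ := (sm f g K (f x j) : ℝ)
    set β : ℝ := (bt f g b (f x j) : ℝ)
    have h4 : 2 ≤ β / (2 * s) := by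
      rw [le_div_iff₀ (by linarith)]
      nlinarith
    linarith

lemma core {K b : ℕ} (hKb : K < b) (hn : 0 < n) (hf : ∀ v i, f (f v i) i = v)
    (hg : ∀ v i, g (f v i) i ↔ g v i)
    (hss : ∀ x i, ¬ g x i → ∃ j, g x j ∧ g (f x j) i ∧ g (f (f x j) i) j)
    {D : ℝ} (hD : D = ∑ v, (deg g v : ℝ)) (hD6 : D ≤ 6 * Fintype.card V) :
    (3 - 18 / (K + 1) - 15 * (K + K * b) / n - 90 * b / n) * (Fintype.card V : ℝ) ≤ D / 2 := by
  have hn' : (0 : ℝ) < n := by exact_mod_cast hn
  set N : ℝ := (Fintype.card V : ℝ) with hN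
  have hN0 : 0 ≤ N := by positivity
  set S := univ.filter (fun x : V => deg g x ≤ K) with hS
  -- the sum over small vertices
  have h1 : ∑ x ∈ S, (3 - 15 * (((K : ℝ) + K * b + tau f g b x) / n)) ≤ D / 2 := by
    have h2 := Finset.sum_le_sum (s := S) (fun x hx => pointwise (f := f) (g := g) hKb hn hf hg hss
      (by simpa [hS] using hx))
    have h3 := claimC (f := f) (g := g) K b hf hg
      (fun u => 1 + (bt f g b u : ℝ) / (2 * sm f g K u))
    have h4 := claimD (f := f) (g := g) hKb hf hg
    have h5 : ∑ u ∈ univ.filter (fun u => b ≤ deg g u),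
        (sm f g K u : ℝ) * (1 + (bt f g b u : ℝ) / (2 * sm f g K u)) ≤
        ∑ u ∈ univ.filter (fun u => b ≤ deg g u), ((sm f g K u : ℝ) + (bt f g b u : ℝ) / 2) := by
      apply Finset.sum_le_sum
      intro u _
      rcases Nat.eq_zero_or_pos (sm f g K u) with h | h
      · rw [h]; simp only [Nat.cast_zero, zero_mul, zero_add]; positivity
      · have h' : (sm f g K u : ℝ) ≠ 0 := by positivity
        apply le_of_eq
        field_simp
    rw [Finset.sum_add_distrib, ← Finset.sum_div] at h5
    linarith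
  -- lower bound of that sum
  have h6 : (N - D / (K + 1)) ≤ (S.card : ℝ) := by
    have h7 : ∑ v ∈ univ.filter (fun x : V => ¬ deg g x ≤ K), ((K : ℝ) + 1) ≤ D := by
      rw [hD]
      calc ∑ v ∈ univ.filter (fun x : V => ¬ deg g x ≤ K), ((K : ℝ) + 1)
          ≤ ∑ v ∈ univ.filter (fun x : V => ¬ deg g x ≤ K), (deg g v : ℝ) := by
            apply Finset.sum_le_sum
            intro v hv
            simp only [mem_filter, mem_univ, true_and, not_le] at hv
            exact_mod_cast hv
        _ ≤ _ := by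
            apply Finset.sum_le_univ_sum_of_nonneg
            intro v; positivity
    rw [Finset.sum_const, nsmul_eq_mul] at h7
    have h8 := Finset.card_filter_add_card_filter_not (s := (univ : Finset V)) (fun x => deg g x ≤ K)
    have h9 : (S.card : ℝ) + ((univ.filter (fun x : V => ¬ deg g x ≤ K)).card : ℝ) = N := by
      rw [hN, ← Finset.card_univ]
      exact_mod_cast h8
    have h10 : ((univ.filter (fun x : V => ¬ deg g x ≤ K)).card : ℝ) ≤ D / (K + 1) := by
      rw [le_div_iff₀ (by positivity)]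
      exact h7
    linarith
  have hS' : (S.card : ℝ) ≤ N := by
    rw [hN, ← Finset.card_univ]
    exact_mod_cast card_le_card (Finset.subset_univ S)
  have h11 : ∑ x ∈ S, (tau f g b x : ℝ) ≤ b * D := by
    have h12 := claimB (f := f) (g := g) b hf hg
    have h13 : ∑ x ∈ S, (tau f g b x : ℝ) ≤ ∑ x, (tau f g b x : ℝ) := by
      apply Finset.sum_le_univ_sum_of_nonneg
      intro v; positivity
    have h14 : ∑ x, (tau f g b x : ℝ) ≤ b * D := by
      rw [hD]
      exact_mod_cast h12
    linarith
  have h15 : ∑ x ∈ S, (3 - 15 * (((K : ℝ) + K * b + tau f g b x) / n)) =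
      3 * S.card - 15 * (((K : ℝ) + K * b) * S.card + ∑ x ∈ S, (tau f g b x : ℝ)) / n := by
    rw [Finset.sum_sub_distrib, ← Finset.mul_sum, ← Finset.sum_div, Finset.sum_add_distrib,
      Finset.sum_const, Finset.sum_const]
    simp only [nsmul_eq_mul]
    ring
  rw [h15] at h1
  have hK1 : (0 : ℝ) < (K : ℝ) + 1 := by positivity
  have h16 : D / (K + 1) ≤ 6 * N / (K + 1) := by
    apply div_le_div_of_nonneg_right hD6 hK1.le
  have hb0 : (0 : ℝ) ≤ b := by positivity
  have h17 : (((K : ℝ) + K * b) * S.card + ∑ x ∈ S, (tau f g b x : ℝ)) / n ≤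
      (((K : ℝ) + K * b) * N + b * (6 * N)) / n := by
    apply div_le_div_of_nonneg_right _ hn'.le
    have h18 : ((K : ℝ) + K * b) * S.card ≤ ((K : ℝ) + K * b) * N :=
      mul_le_mul_of_nonneg_left hS' (by positivity)
    have h19 : (b : ℝ) * D ≤ b * (6 * N) := mul_le_mul_of_nonneg_left hD6 hb0
    linarith
  have h20 : (3 - 18 / ((K : ℝ) + 1) - 15 * (K + K * b) / n - 90 * b / n) * N =
      3 * (N - 6 * N / (K + 1)) - 15 * ((((K : ℝ) + K * b) * N + b * (6 * N)) / n) := by
    ring
  rw [h20]
  have h21 : 15 * (((K : ℝ) + K * b) * S.card + ∑ x ∈ S, (tau f g b x : ℝ)) / n =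
      15 * ((((K : ℝ) + K * b) * S.card + ∑ x ∈ S, (tau f g b x : ℝ)) / n) := by ring
  rw [h21] at h1
  linarith

end Core

/-! ### The hypercube -/

/-- flip a coordinate -/
def flp {n : ℕ} (u : Fin n → Bool) (a : Fin n) : Fin n → Bool := Function.update u a (!(u a))

lemma flp_flp {n : ℕ} (u : Fin n → Bool) (a : Fin n) : flp (flp u a) a = u := by
  funext j
  by_cases h : j = a
  · subst h; simp [flp]
  · simp [flp, h]

lemma flp_self {n : ℕ} (u : Fin n → Bool) (a : Fin n) : flp u a a = !(u a) := by simp [flp]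

lemma flp_of_ne {n : ℕ} (u : Fin n → Bool) {a j : Fin n} (h : j ≠ a) : flp u a j = u j := by
  simp [flp, h]

lemma flp_comm {n : ℕ} (u : Fin n → Bool) (a b : Fin n) : flp (flp u a) b = flp (flp u b) a := by
  funext j
  by_cases ha : j = a <;> by_cases hb : j = b
  · subst ha; subst hb; rfl
  · subst ha; rw [flp_of_ne _ hb, flp_self, flp_self, flp_of_ne _ hb]
  · subst hb; rw [flp_of_ne _ ha, flp_self, flp_self, flp_of_ne _ ha]
  · rw [flp_of_ne _ hb, flp_of_ne _ ha, flp_of_ne _ ha, flp_of_ne _ hb]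

lemma flp_adj {n : ℕ} (u : Fin n → Bool) (a : Fin n) : (Q n).Adj u (flp u a) := by
  change hammingDist u (flp u a) = 1
  unfold hammingDist
  rw [Finset.card_eq_one]
  refine ⟨a, ?_⟩
  ext j
  simp only [Finset.mem_filter, Finset.mem_univ, true_and, Finset.mem_singleton]
  by_cases hj : j = a
  · subst hj; simp [flp]
  · simp [flp, hj]

lemma adj_flp {n : ℕ} {u v : Fin n → Bool} (h : (Q n).Adj u v) : ∃ a, v = flp u a := by
  have h1 : hammingDist u v = 1 := h
  unfold hammingDist at h1
  rw [Finset.card_eq_one] at h1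
  obtain ⟨a, ha⟩ := h1
  refine ⟨a, ?_⟩
  funext j
  have hj : (j ∈ Finset.univ.filter fun i => u i ≠ v i) ↔ j ∈ ({a} : Finset (Fin n)) := by rw [ha]
  simp only [Finset.mem_filter, Finset.mem_univ, true_and, Finset.mem_singleton] at hj
  by_cases hja : j = a
  · subst hja
    have := hj.2 rfl
    rw [flp_self]
    revert this
    cases u j <;> cases v j <;> simp
  · rw [flp_of_ne _ hja]
    by_contra hc
    exact hja (hj.1 (fun h => hc h.symm))

lemma flp_inj {n : ℕ} (u : Fin n → Bool) : Function.Injective (flp u) := by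
  intro a b h
  by_contra hab
  have h1 := congrFun h a
  rw [flp_self, flp_of_ne _ hab] at h1
  revert h1
  cases u a <;> simp

/-- the condition of semi-saturation in terms of directions -/
lemma semi_dir {n : ℕ} {G : SimpleGraph (Fin n → Bool)} (hG : SemiSat G) (x : Fin n → Bool)
    (i : Fin n) (h : ¬ G.Adj x (flp x i)) :
    ∃ j, G.Adj x (flp x j) ∧ G.Adj (flp x j) (flp (flp x j) i) ∧
      G.Adj (flp (flp x j) i) (flp (flp (flp x j) i) j) := by
  obtain ⟨z, w, hxz, hyw, h1, h2, h3⟩ := hG.2 x (flp x i) (flp_adj x i) h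
  obtain ⟨j, rfl⟩ := adj_flp (hG.1 h3.symm)
  obtain ⟨k, hk⟩ := adj_flp (hG.1 h1)
  obtain ⟨l, hl⟩ := adj_flp (hG.1 h2.symm)
  have hij : i ≠ j := by
    rintro rfl
    exact hyw rfl
  have hik : i ≠ k := by
    rintro rfl
    apply hxz
    rw [hk, flp_flp]
  have hli : l = i := by
    by_contra hli
    have e1 : z i = !(x i) := by rw [hk, flp_of_ne _ hik, flp_self]
    have e2 : z i = x i := by rw [hl, flp_of_ne _ (Ne.symm hli), flp_of_ne _ hij]
    rw [e1] at e2
    revert e2
    cases x i <;> simp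
  subst hli
  refine ⟨j, h3.symm, ?_, ?_⟩
  · rw [← hl]; exact h2.symm
  · rw [← hl]
    have e3 : flp z j = flp x l := by
      rw [hl, flp_comm x j l, flp_flp]
    rw [e3]
    exact h1.symm

open Classical in
lemma sum_deg {n : ℕ} {G : SimpleGraph (Fin n → Bool)} (hG : G ≤ Q n) :
    ∑ v, deg (fun u i => G.Adj u (flp u i)) v = 2 * G.edgeSet.ncard := by
  have h1 : ∀ v, deg (fun u i => G.Adj u (flp u i)) v = G.degree v := by
    intro v
    unfold deg
    rw [← SimpleGraph.card_neighborFinset_eq_degree,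
      ← Finset.card_image_of_injective _ (flp_inj v)]
    congr 1
    ext u
    simp only [Finset.mem_image, Finset.mem_filter, Finset.mem_univ, true_and,
      SimpleGraph.mem_neighborFinset]
    constructor
    · rintro ⟨a, ha, rfl⟩; exact ha
    · intro hu
      obtain ⟨a, rfl⟩ := adj_flp (hG hu)
      exact ⟨a, hu, rfl⟩
  simp only [h1]
  rw [SimpleGraph.sum_degrees_eq_twice_card_edges, Set.ncard_eq_toFinset_card']
  rfl

lemma lower (ε : ℝ) (hε : 0 < ε) : ∃ n₀ : ℕ, ∀ n ≥ n₀, ∀ G : SimpleGraph (Fin n → Bool),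
    SemiSat G → (3 - ε) * 2 ^ n ≤ (G.edgeSet.ncard : ℝ) := by
  obtain ⟨K, hK⟩ := exists_nat_gt (36 / ε)
  obtain ⟨B, hB⟩ := exists_nat_gt ((60 * K + 180) / ε)
  refine ⟨(B + K + 1) ^ 2, fun n hn G hG => ?_⟩
  set b := Nat.sqrt n with hb
  have hb1 : B + K + 1 ≤ b := by
    rw [hb, Nat.le_sqrt']
    exact hn
  have hb2 : b * b ≤ n := Nat.sqrt_le n
  have hn0 : 0 < n := by
    have : 0 < b * b := by
      have : 0 < b := by omega
      positivity
    omega
  have hsum := sum_deg hG.1
  set D : ℝ := ∑ v, (deg (fun u i => G.Adj u (flp u i)) v : ℝ) with hD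
  have hDE : D = 2 * (G.edgeSet.ncard : ℝ) := by
    rw [hD]; exact_mod_cast hsum
  have hcard : (Fintype.card (Fin n → Bool) : ℝ) = 2 ^ n := by simp
  have h2n : (0 : ℝ) < 2 ^ n := by positivity
  by_cases hD6 : D ≤ 6 * (Fintype.card (Fin n → Bool) : ℝ)
  · have hc := core (f := flp) (g := fun u i => G.Adj u (flp u i)) (K := K) (b := b) (by omega) hn0
      flp_flp (fun v i => by rw [flp_flp]; exact G.adj_comm _ _) (semi_dir hG) hD hD6
    rw [hcard, hDE] at hc
    have hcoef : 3 - ε ≤ 3 - 18 / ((K : ℝ) + 1) - 15 * (K + K * b) / n - 90 * b / n := by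
      have e1 : 18 / ((K : ℝ) + 1) ≤ ε / 2 := by
        rw [div_le_iff₀ (by positivity)]
        rw [div_lt_iff₀ hε] at hK
        nlinarith
      have hbpos : (0 : ℝ) < b := by
        have : 0 < b := by omega
        exact_mod_cast this
      have hbn : (b : ℝ) * b ≤ n := by exact_mod_cast hb2
      have hb1' : (1 : ℝ) ≤ b := by
        have : 1 ≤ b := by omega
        exact_mod_cast this
      have hn' : (0 : ℝ) < n := by exact_mod_cast hn0
      have e2 : 15 * ((K : ℝ) + K * b) / n + 90 * b / n ≤ ε / 2 := by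
        have e3 : (60 * (K : ℝ) + 180) ≤ ε * b := by
          rw [div_lt_iff₀ hε] at hB
          have : (B : ℝ) ≤ b := by
            have : B ≤ b := by omega
            exact_mod_cast this
          nlinarith
        rw [← add_div, div_le_iff₀ hn']
        have hK0 : (0 : ℝ) ≤ K := by positivity
        have e4 : 15 * ((K : ℝ) + K * b) + 90 * b ≤ (30 * K + 90) * b := by nlinarith
        have e5 : (30 * (K : ℝ) + 90) * b ≤ ε / 2 * (b * b) := by nlinarith
        have e6 : ε / 2 * (b * b) ≤ ε / 2 * n := by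
          apply mul_le_mul_of_nonneg_left hbn (by positivity)
        linarith
      linarith
    have := mul_le_mul_of_nonneg_right hcoef h2n.le
    linarith
  · push Not at hD6
    rw [hcard, hDE] at hD6
    nlinarith

/-! ### The construction from two Hamming codes -/

/-- the syndrome of a 0/1 vector with respect to the columns `c` -/
def synd {n k : ℕ} (c : Fin n → (Fin k → ZMod 2)) (v : Fin n → Bool) : Fin k → ZMod 2 :=
  ∑ i, if v i then c i else 0

lemma hadd {k : ℕ} (h : Fin k → ZMod 2) : h + h = 0 := by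
  funext j
  exact CharTwo.add_self_eq_zero (h j)

lemma synd_flp {n k : ℕ} (c : Fin n → (Fin k → ZMod 2)) (v : Fin n → Bool) (i : Fin n) :
    synd c (flp v i) = synd c v + c i := by
  unfold synd
  rw [← Finset.add_sum_erase univ _ (Finset.mem_univ i),
    ← Finset.add_sum_erase univ (fun j => if v j then c j else 0) (Finset.mem_univ i)]
  have h1 : ∑ j ∈ univ.erase i, (if flp v i j then c j else 0) =
      ∑ j ∈ univ.erase i, (if v j then c j else 0) := by
    apply Finset.sum_congr rfl
    intro j hj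
    rw [flp_of_ne _ (Finset.ne_of_mem_erase hj)]
  rw [h1, flp_self]
  cases v i
  · simp only [Bool.not_false, if_true, Bool.false_eq_true, if_false]
    abel
  · simp only [Bool.not_true, if_true, Bool.false_eq_true, if_false]
    rw [add_right_comm, hadd]

lemma card_code {n k : ℕ} (c : Fin n → (Fin k → ZMod 2)) (hc : ∀ h, h ≠ 0 → ∃ i, c i = h) :
    2 ^ k * (univ.filter fun v : Fin n → Bool => synd c v = 0).card = 2 ^ n := by
  have h1 : ∀ h : Fin k → ZMod 2, (univ.filter fun v : Fin n → Bool => synd c v = h).card =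
      (univ.filter fun v : Fin n → Bool => synd c v = 0).card := by
    intro h
    by_cases hh : h = 0
    · rw [hh]
    · obtain ⟨i, hi⟩ := hc h hh
      rw [card_filter, card_filter,
        ← sum_flip (f := flp) flp_flp i (fun v => if synd c v = h then 1 else 0)]
      apply Finset.sum_congr rfl
      intro v _
      rw [synd_flp, hi]
      simp only [add_eq_right]
  have h2 := Finset.card_eq_sum_card_fiberwise (f := fun v : Fin n → Bool => synd c v)
    (s := univ) (t := univ) (fun _ _ => Finset.mem_coe.2 (Finset.mem_univ _))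
  simp only [h1, Finset.sum_const, smul_eq_mul] at h2
  have h3 : (univ : Finset (Fin k → ZMod 2)).card = 2 ^ k := by
    simp
  have h4 : (univ : Finset (Fin n → Bool)).card = 2 ^ n := by simp
  rw [h3, h4] at h2
  exact h2.symm

open Classical in
lemma deg_le_two {V : Type} {n : ℕ} (g : V → Fin n → Prop) (v : V) (a b : Fin n)
    (h : ∀ i, g v i → i ∈ ({a, b} : Finset (Fin n))) : deg g v ≤ 2 := by
  unfold deg
  refine (card_le_card (t := ({a, b} : Finset (Fin n))) ?_).trans card_le_two
  intro i hi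
  rw [mem_filter] at hi
  exact h i hi.2

lemma upper (k : ℕ) : ∃ G : SimpleGraph (Fin (2 * (2 ^ k - 1)) → Bool),
    SemiSat G ∧ G.edgeSet.ncard ≤ 3 * 2 ^ (2 * (2 ^ k - 1)) := by
  classical
  set n := 2 * (2 ^ k - 1) with hn
  let N := {h : Fin k → ZMod 2 // h ≠ 0}
  have hN : Fintype.card N = 2 ^ k - 1 := by
    have : Fintype.card N = Fintype.card (Fin k → ZMod 2) - 1 := by
      rw [Fintype.card_subtype_compl, Fintype.card_subtype_eq]
    rw [this]; simp
  have hcard : Fintype.card (Fin n) = Fintype.card (N ⊕ N) := by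
    rw [Fintype.card_fin, Fintype.card_sum, hN]; omega
  let e : Fin n ≃ N ⊕ N := Fintype.equivOfCardEq hcard
  let c1 : Fin n → (Fin k → ZMod 2) := fun i => Sum.elim (fun h => h.1) (fun _ => 0) (e i)
  let c2 : Fin n → (Fin k → ZMod 2) := fun i => Sum.elim (fun _ => 0) (fun h => h.1) (e i)
  have hc1l : ∀ h : N, c1 (e.symm (Sum.inl h)) = h.1 := fun h => by simp [c1]
  have hc1r : ∀ h : N, c1 (e.symm (Sum.inr h)) = 0 := fun h => by simp [c1]
  have hc2l : ∀ h : N, c2 (e.symm (Sum.inl h)) = 0 := fun h => by simp [c2]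
  have hc2r : ∀ h : N, c2 (e.symm (Sum.inr h)) = h.1 := fun h => by simp [c2]
  let Z : Finset (Fin n → Bool) := univ.filter fun v => synd c1 v = 0 ∨ synd c2 v = 0
  have hZ : ∀ v, v ∈ Z ↔ (synd c1 v = 0 ∨ synd c2 v = 0) := fun v => by simp [Z]
  let G : SimpleGraph (Fin n → Bool) :=
    { Adj := fun u v => (Q n).Adj u v ∧ (u ∈ Z ∨ v ∈ Z)
      symm := ⟨fun u v h => ⟨h.1.symm, h.2.symm⟩⟩
      loopless := ⟨fun u h => (Q n).loopless.irrefl u h.1⟩ }
  have hGQ : G ≤ Q n := fun u v h => h.1
  refine ⟨G, ⟨hGQ, ?_⟩, ?_⟩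
  · intro x y hxy hnot
    obtain ⟨i, rfl⟩ := adj_flp hxy
    have hx : x ∉ Z := fun h => hnot ⟨hxy, Or.inl h⟩
    rw [hZ, not_or] at hx
    -- a direction of the other half
    obtain ⟨j, hij, hj1, hj2⟩ : ∃ j, i ≠ j ∧ flp x j ∈ Z ∧ flp (flp x i) j ∈ Z := by
      rcases hei : e i with h | h
      · have hi : i = e.symm (Sum.inl h) := by rw [← hei, Equiv.symm_apply_apply]
        refine ⟨e.symm (Sum.inr ⟨synd c2 x, hx.2⟩), ?_, ?_, ?_⟩
        · rw [hi]
          intro hc
          have := e.symm.injective hc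
          simp at this
        · rw [hZ, synd_flp c2, hc2r, hadd]; exact Or.inr rfl
        · rw [hZ, synd_flp c2, hc2r, synd_flp c2, hi, hc2l, add_zero, hadd]; exact Or.inr rfl
      · have hi : i = e.symm (Sum.inr h) := by rw [← hei, Equiv.symm_apply_apply]
        refine ⟨e.symm (Sum.inl ⟨synd c1 x, hx.1⟩), ?_, ?_, ?_⟩
        · rw [hi]
          intro hc
          have := e.symm.injective hc
          simp at this
        · rw [hZ, synd_flp c1, hc1l, hadd]; exact Or.inl rfl
        · rw [hZ, synd_flp c1, hc1l, synd_flp c1, hi, hc1r, add_zero, hadd]; exact Or.inl rfl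
    refine ⟨flp (flp x i) j, flp x j, ?_, ?_, ?_, ?_, ?_⟩
    · intro hc
      have h1 := congrFun hc i
      rw [flp_of_ne _ hij, flp_self] at h1
      revert h1
      cases x i <;> simp
    · intro hc
      exact hij (flp_inj x hc)
    · exact ⟨flp_adj _ _, Or.inr hj2⟩
    · refine ⟨?_, Or.inl hj2⟩
      rw [flp_comm]
      exact (flp_adj _ _).symm
    · exact ⟨(flp_adj _ _).symm, Or.inl hj1⟩
  · have hsum := sum_deg hGQ
    have hdeg : ∀ v, deg (fun u i => G.Adj u (flp u i)) v ≤
        2 + n * (if synd c1 v = 0 then 1 else 0) + n * (if synd c2 v = 0 then 1 else 0) := by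
      intro v
      by_cases hv : v ∈ Z
      · have h1 : deg (fun u i => G.Adj u (flp u i)) v ≤ n := deg_le v
        rw [hZ] at hv
        rcases hv with hv | hv
        · rw [if_pos hv]; omega
        · rw [if_pos hv]; omega
      · have hv' := hv
        rw [hZ, not_or] at hv'
        have h2 : ∀ i, G.Adj v (flp v i) → i ∈
            ({e.symm (Sum.inl ⟨synd c1 v, hv'.1⟩), e.symm (Sum.inr ⟨synd c2 v, hv'.2⟩)} :
              Finset (Fin n)) := by
          intro i hi
          have h3 : flp v i ∈ Z := hi.2.resolve_left hv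
          rw [hZ, synd_flp, synd_flp] at h3
          rw [Finset.mem_insert, Finset.mem_singleton, Equiv.eq_symm_apply, Equiv.eq_symm_apply]
          rcases hei : e i with h | h
          · left
            have hi' : i = e.symm (Sum.inl h) := by rw [← hei, Equiv.symm_apply_apply]
            rw [hi', hc1l, hc2l, add_zero] at h3
            have h4 := h3.resolve_right hv'.2
            have h5 : h.1 = synd c1 v := by
              have : synd c1 v + (synd c1 v + h.1) = synd c1 v := by rw [h4, add_zero]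
              rwa [← add_assoc, hadd, zero_add] at this
            congr 1
            exact Subtype.ext h5
          · right
            have hi' : i = e.symm (Sum.inr h) := by rw [← hei, Equiv.symm_apply_apply]
            rw [hi', hc1r, hc2r, add_zero] at h3
            have h4 := h3.resolve_left hv'.1
            have h5 : h.1 = synd c2 v := by
              have : synd c2 v + (synd c2 v + h.1) = synd c2 v := by rw [h4, add_zero]
              rwa [← add_assoc, hadd, zero_add] at this
            congr 1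
            exact Subtype.ext h5
        have h6 : deg (fun u i => G.Adj u (flp u i)) v ≤ 2 := by
          exact deg_le_two _ _ _ _ h2
        omega
    have h7 := Finset.sum_le_sum (s := univ) (fun v _ => hdeg v)
    rw [hsum, Finset.sum_add_distrib, Finset.sum_add_distrib, ← Finset.mul_sum, ← Finset.mul_sum,
      ← card_filter, ← card_filter, Finset.sum_const, smul_eq_mul] at h7
    have h8 := card_code c1 (fun h hh => ⟨e.symm (Sum.inl ⟨h, hh⟩), hc1l ⟨h, hh⟩⟩)
    have h9 := card_code c2 (fun h hh => ⟨e.symm (Sum.inr ⟨h, hh⟩), hc2r ⟨h, hh⟩⟩)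
    have h10 : (univ : Finset (Fin n → Bool)).card = 2 ^ n := by simp
    rw [h10] at h7
    have h11 : n ≤ 2 * 2 ^ k := by omega
    have h12 : n * (univ.filter fun v : Fin n → Bool => synd c1 v = 0).card ≤ 2 * 2 ^ n :=
      calc n * (univ.filter fun v : Fin n → Bool => synd c1 v = 0).card
          ≤ 2 * 2 ^ k * (univ.filter fun v : Fin n → Bool => synd c1 v = 0).card :=
            Nat.mul_le_mul_right _ h11
        _ = 2 * (2 ^ k * (univ.filter fun v : Fin n → Bool => synd c1 v = 0).card) := by ring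
        _ = 2 * 2 ^ n := by rw [h8]
    have h13 : n * (univ.filter fun v : Fin n → Bool => synd c2 v = 0).card ≤ 2 * 2 ^ n :=
      calc n * (univ.filter fun v : Fin n → Bool => synd c2 v = 0).card
          ≤ 2 * 2 ^ k * (univ.filter fun v : Fin n → Bool => synd c2 v = 0).card :=
            Nat.mul_le_mul_right _ h11
        _ = 2 * (2 ^ k * (univ.filter fun v : Fin n → Bool => synd c2 v = 0).card) := by ring
        _ = 2 * 2 ^ n := by rw [h9]
    linarith

lemma sSat_mem (n : ℕ) : ∃ G : SimpleGraph (Fin n → Bool), SemiSat G ∧ G.edgeSet.ncard = sSat n := by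
  have hne : {m : ℕ | ∃ G : SimpleGraph (Fin n → Bool), SemiSat G ∧
      G.edgeSet.ncard = m}.Nonempty :=
    ⟨(Q n).edgeSet.ncard, Q n, ⟨le_refl _, fun x y h h' => absurd h h'⟩, rfl⟩
  exact Nat.sInf_mem hne

/-- (1) `s-sat(Q_n, Q_2) ≥ (3 - o(1)) 2 ^ n`. (2) `s-sat(Q_n, Q_2) ≤ 3 * 2 ^ n` for all `n` of the
form `2 (2 ^ k - 1)`. -/
theorem result :
    (∀ ε : ℝ, 0 < ε → ∃ n₀ : ℕ, ∀ n ≥ n₀, (3 - ε) * 2 ^ n ≤ (sSat n : ℝ)) ∧
    (∀ k : ℕ, sSat (2 * (2 ^ k - 1)) ≤ 3 * 2 ^ (2 * (2 ^ k - 1))) := by
  refine ⟨fun ε hε => ?_, fun k => ?_⟩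
  · obtain ⟨n₀, h⟩ := lower ε hε
    refine ⟨n₀, fun n hn => ?_⟩
    obtain ⟨G, hG, hc⟩ := sSat_mem n
    rw [← hc]
    exact h n hn G hG
  · obtain ⟨G, hG, hc⟩ := upper k
    have hmem : G.edgeSet.ncard ∈ {m : ℕ | ∃ G : SimpleGraph (Fin (2 * (2 ^ k - 1)) → Bool),
        SemiSat G ∧ G.edgeSet.ncard = m} := ⟨G, hG, rfl⟩
    exact (Nat.sInf_le hmem).trans hc

end Pool.Agent.Results.MP_71830d_co.SemiSatThree
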