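import Mathlib

/-!
# Saturation and semi-saturation of the square in the hypercube differ

`sat(Q_n, Q_2) ≥ 3.1 * 2 ^ n` for all `n ≥ 10 ^ 16`, and `s-sat(Q_n, Q_2) ≤ 3 * 2 ^ n` for all
`n = 2 (2 ^ k - 1)`. So `s-sat(Q_n, Q_2) < sat(Q_n, Q_2)` for infinitely many `n`: the answer to both
parts of Q1 is no.

Upper bound: all edges of `Q_n` with an end in `(C × Q_m) ∪ (Q_m × C)`, `C` the Hamming code of length
`m = 2 ^ k - 1`.

Lower bound: call a vertex small if its degree is at most `K = 1000` and big if it is at least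
`b = √n`. For a small vertex `x` and a direction `i` missing at `x` there is a neighbour `u` of `x`,
`x = u + e_j`, with edges from `w = u + e_i` to `u` and to `w + e_j`. By double counting
almost all these `u`, `w` are big, and almost every small vertex has two big neighbours. For big `u`
let `β(u)`, `s(u)` be the numbers of its big and small neighbours. So the number `R` of these
rectangles is at least `(1 - o(1)) n 2 ^ n`, and `∑ s(u) ≥ (2 - o(1)) 2 ^ n`; clearly
`R ≤ ∑ s(u) β(u)`. If there is no square, then the directions of the big neighbours of `u` and of `w` have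
few elements in common (on average), and hence also the directions of their small
neighbours; this gives `R ≤ ∑ β(u) (n - 3 β(u) / 2)` up to small terms. Since `s(u) + β(u) ≤ n`, the
number `∑ (s(u) + β(u) / 2)` of edges at big vertices is at least `(3.2 - o(1)) 2 ^ n`.
-/

set_option autoImplicit false

open Finset

namespace Pool.Agent.Results.MP_71830d_co.Separation

/-- The hypercube graph `Q_n` on `{0,1}^n`: two vertices are adjacent exactly when they differ in
one coordinate. -/
def Q (n : ℕ) : SimpleGraph (Fin n → Bool) where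
  Adj x y := hammingDist x y = 1
  symm := ⟨fun x y h => by rw [hammingDist_comm]; exact h⟩
  loopless := ⟨fun x h => by simp at h⟩

/-- `G` is a `(Q_n, Q_2)`-semi-saturated graph: a subgraph of `Q_n` such that for every edge `xy` of
`Q_n` which is not in `G` there is a 4-cycle `x y z w` whose edges other than `xy` are in `G`. -/
def SemiSat {n : ℕ} (G : SimpleGraph (Fin n → Bool)) : Prop :=
  G ≤ Q n ∧ ∀ x y, (Q n).Adj x y → ¬ G.Adj x y →
    ∃ z w, x ≠ z ∧ y ≠ w ∧ G.Adj y z ∧ G.Adj z w ∧ G.Adj w x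

/-- The number `s-sat(Q_n, Q_2)`: the least number of edges of a `(Q_n, Q_2)`-semi-saturated graph. -/
noncomputable def sSat (n : ℕ) : ℕ :=
  sInf {m : ℕ | ∃ G : SimpleGraph (Fin n → Bool), SemiSat G ∧ G.edgeSet.ncard = m}

/-! ### The abstract counting argument -/

section Core

open Classical

variable {V : Type} [Fintype V] {n : ℕ} (f : V → Fin n → V) (g : V → Fin n → Prop)

/-- degree -/
noncomputable def deg (v : V) : ℕ := (univ.filter fun i => g v i).card

/-- number of small neighbours -/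
noncomputable def sm (K : ℕ) (u : V) : ℕ :=
  (univ.filter fun j => g u j ∧ deg g (f u j) ≤ K).card

/-- number of big neighbours -/
noncomputable def bt (b : ℕ) (u : V) : ℕ :=
  (univ.filter fun j => g u j ∧ b ≤ deg g (f u j)).card

/-- the number of pairs `(j, i)` served through a vertex which is not big -/
noncomputable def tau (b : ℕ) (x : V) : ℕ :=
  ∑ j : Fin n, ∑ i : Fin n, if g x j ∧ g (f x j) i ∧ g (f (f x j) i) j ∧
    ¬ b ≤ deg g (f (f x j) i) then 1 else 0

/-- the big neighbours of `x` -/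
noncomputable def NB (b : ℕ) (x : V) : Finset (Fin n) :=
  univ.filter fun j => g x j ∧ b ≤ deg g (f x j)

variable {f g}

/-- substitution along a direction -/
lemma sum_flip (hf : ∀ v i, f (f v i) i = v) (j : Fin n) {M : Type} [AddCommMonoid M] (F : V → M) :
    ∑ x, F (f x j) = ∑ x, F x := by
  refine Fintype.sum_bijective (fun x => f x j) ?_ _ _ (fun x => rfl)
  exact Function.Involutive.bijective (fun x => hf x j)

omit [Fintype V] in
lemma claimA (K b : ℕ)
    (hss : ∀ x i, ¬ g x i → ∃ j, g x j ∧ g (f x j) i ∧ g (f (f x j) i) j)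
    {x : V} (hx : deg g x ≤ K) :
    n ≤ K + K * b + tau f g b x + ∑ j ∈ NB f g b x, bt f g b (f x j) := by
  have h1 : (univ : Finset (Fin n)) ⊆ (univ.filter fun i => g x i) ∪
      (univ.filter fun j => g x j).biUnion (fun j => univ.filter fun i => g (f x j) i ∧
        g (f (f x j) i) j) := by
    intro i _
    by_cases h : g x i
    · exact mem_union_left _ (by simpa using h)
    · obtain ⟨j, h2, h3, h4⟩ := hss x i h
      apply mem_union_right
      rw [mem_biUnion]
      exact ⟨j, by simpa using h2, by simp [h3, h4]⟩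
  have h2 : n ≤ deg g x + ∑ j ∈ univ.filter (fun j => g x j),
      (univ.filter fun i => g (f x j) i ∧ g (f (f x j) i) j).card := by
    calc n = (univ : Finset (Fin n)).card := by simp
      _ ≤ _ := card_le_card h1
      _ ≤ _ := card_union_le _ _
      _ ≤ _ := Nat.add_le_add_left card_biUnion_le _
  have h3 : ∀ j ∈ univ.filter (fun j => g x j),
      (univ.filter fun i => g (f x j) i ∧ g (f (f x j) i) j).card ≤
      b + (if b ≤ deg g (f x j) then bt f g b (f x j) else 0) +
      ∑ i : Fin n, if g x j ∧ g (f x j) i ∧ g (f (f x j) i) j ∧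
        ¬ b ≤ deg g (f (f x j) i) then 1 else 0 := by
    intro j hj
    have hj' : g x j := by simpa using hj
    by_cases hb : b ≤ deg g (f x j)
    · rw [if_pos hb]
      have : (univ.filter fun i => g (f x j) i ∧ g (f (f x j) i) j) ⊆
          (univ.filter fun i => g (f x j) i ∧ b ≤ deg g (f (f x j) i)) ∪
          (univ.filter fun i => g x j ∧ g (f x j) i ∧ g (f (f x j) i) j ∧
        ¬ b ≤ deg g (f (f x j) i)) := by
        intro i hi
        simp only [mem_filter, mem_univ, true_and, mem_union] at hi ⊢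
        by_cases h : b ≤ deg g (f (f x j) i)
        · exact Or.inl ⟨hi.1, h⟩
        · exact Or.inr ⟨hj', hi.1, hi.2, h⟩
      have h4 := (card_le_card this).trans (card_union_le _ _)
      rw [← card_filter]
      unfold bt
      omega
    · rw [if_neg hb]
      have h5 : (univ.filter fun i => g (f x j) i ∧ g (f (f x j) i) j).card ≤ deg g (f x j) := by
        apply card_le_card
        intro i hi
        simp only [mem_filter, mem_univ, true_and] at hi ⊢
        exact hi.1
      omega
  have h4 := Finset.sum_le_sum h3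
  rw [Finset.sum_add_distrib, Finset.sum_add_distrib, Finset.sum_const] at h4
  have h5 : ∑ j ∈ univ.filter (fun j => g x j),
      (if b ≤ deg g (f x j) then bt f g b (f x j) else 0) =
      ∑ j ∈ NB f g b x, bt f g b (f x j) := by
    rw [← Finset.sum_filter, Finset.filter_filter]
    rfl
  have h6 : ∑ j ∈ univ.filter (fun j => g x j), (∑ i : Fin n, if g x j ∧ g (f x j) i ∧
      g (f (f x j) i) j ∧ ¬ b ≤ deg g (f (f x j) i) then 1 else 0) ≤ tau f g b x := by
    unfold tau
    exact Finset.sum_le_univ_sum_of_nonneg (fun _ => Nat.zero_le _)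
  have h7 : (univ.filter (fun j => g x j)).card • b ≤ K * b := by
    rw [smul_eq_mul]
    exact Nat.mul_le_mul_right _ hx
  rw [h5] at h4
  omega

lemma claimB (b : ℕ) (hf : ∀ v i, f (f v i) i = v) (hg : ∀ v i, g (f v i) i ↔ g v i) :
    ∑ x, tau f g b x ≤ b * ∑ v, deg g v := by
  unfold tau
  rw [Finset.sum_comm]
  have h1 : ∀ j : Fin n, ∑ x, ∑ i : Fin n, (if g x j ∧ g (f x j) i ∧ g (f (f x j) i) j ∧
      ¬ b ≤ deg g (f (f x j) i) then 1 else 0) ≤
      ∑ i : Fin n, ∑ w, (if g w i ∧ g w j ∧ ¬ b ≤ deg g w then 1 else 0) := by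
    intro j
    rw [Finset.sum_comm]
    apply Finset.sum_le_sum
    intro i _
    rw [← sum_flip hf i (fun w => if g w i ∧ g w j ∧ ¬ b ≤ deg g w then 1 else 0),
      ← sum_flip hf j (fun w => if g (f w i) i ∧ g (f w i) j ∧ ¬ b ≤ deg g (f w i) then 1 else 0)]
    apply Finset.sum_le_sum
    intro x _
    by_cases h : g x j ∧ g (f x j) i ∧ g (f (f x j) i) j ∧ ¬ b ≤ deg g (f (f x j) i)
    · rw [if_pos h, if_pos ⟨(hg _ _).2 h.2.1, h.2.2.1, h.2.2.2⟩]
    · rw [if_neg h]; exact Nat.zero_le _
  refine (Finset.sum_le_sum fun j _ => h1 j).trans ?_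
  have h2 : ∀ w : V, ∑ j : Fin n, ∑ i : Fin n, (if g w i ∧ g w j ∧ ¬ b ≤ deg g w then 1 else 0) ≤
      b * deg g w := by
    intro w
    by_cases hb : b ≤ deg g w
    · have : ∑ j : Fin n, ∑ i : Fin n, (if g w i ∧ g w j ∧ ¬ b ≤ deg g w then 1 else 0) = 0 := by
        apply Finset.sum_eq_zero; intro j _
        apply Finset.sum_eq_zero; intro i _
        rw [if_neg]; tauto
      rw [this]; exact Nat.zero_le _
    · have h3 : ∀ j : Fin n, ∑ i : Fin n, (if g w i ∧ g w j ∧ ¬ b ≤ deg g w then 1 else 0) ≤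
          if g w j then b else 0 := by
        intro j
        by_cases hj : g w j
        · rw [if_pos hj]
          have : ∑ i : Fin n, (if g w i ∧ g w j ∧ ¬ b ≤ deg g w then 1 else 0) ≤ deg g w := by
            unfold deg
            rw [card_filter]
            apply Finset.sum_le_sum
            intro i _
            by_cases hi : g w i
            · rw [if_pos hi]; split_ifs <;> omega
            · rw [if_neg (by tauto)]; exact Nat.zero_le _
          omega
        · rw [if_neg hj]
          apply le_of_eq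
          apply Finset.sum_eq_zero; intro i _
          rw [if_neg]; tauto
      refine (Finset.sum_le_sum fun j _ => h3 j).trans ?_
      rw [← Finset.sum_filter, Finset.sum_const, smul_eq_mul, mul_comm]
      rfl
  calc ∑ j : Fin n, ∑ i : Fin n, ∑ w, (if g w i ∧ g w j ∧ ¬ b ≤ deg g w then 1 else 0)
      = ∑ j : Fin n, ∑ w, ∑ i : Fin n, (if g w i ∧ g w j ∧ ¬ b ≤ deg g w then 1 else 0) := by
        apply Finset.sum_congr rfl; intro j _; rw [Finset.sum_comm]
    _ = ∑ w, ∑ j : Fin n, ∑ i : Fin n, (if g w i ∧ g w j ∧ ¬ b ≤ deg g w then 1 else 0) := by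
        rw [Finset.sum_comm]
    _ ≤ ∑ w, b * deg g w := Finset.sum_le_sum fun w _ => h2 w
    _ = b * ∑ v, deg g v := by rw [Finset.mul_sum]

lemma claimC (K b : ℕ) (hf : ∀ v i, f (f v i) i = v) (hg : ∀ v i, g (f v i) i ↔ g v i)
    (F : V → ℝ) :
    ∑ x ∈ univ.filter (fun x => deg g x ≤ K), ∑ j ∈ NB f g b x, F (f x j) =
    ∑ u ∈ univ.filter (fun u => b ≤ deg g u), (sm f g K u : ℝ) * F u := by
  have h1 : ∀ x : V, ∑ j ∈ NB f g b x, F (f x j) =
      ∑ j : Fin n, if g x j ∧ b ≤ deg g (f x j) then F (f x j) else 0 := by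
    intro x
    unfold NB
    rw [Finset.sum_filter]
  have h2 : ∀ u : V, (sm f g K u : ℝ) * F u =
      ∑ j : Fin n, if g u j ∧ deg g (f u j) ≤ K then F u else 0 := by
    intro u
    unfold sm
    rw [← Finset.sum_filter, Finset.sum_const, nsmul_eq_mul]
  rw [Finset.sum_filter, Finset.sum_filter]
  calc ∑ x, (if deg g x ≤ K then ∑ j ∈ NB f g b x, F (f x j) else 0)
      = ∑ x, ∑ j : Fin n, (if deg g x ≤ K ∧ g x j ∧ b ≤ deg g (f x j) then F (f x j) else 0) := by
        apply Finset.sum_congr rfl; intro x _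
        rw [h1]
        by_cases hx : deg g x ≤ K
        · simp [hx]
        · simp [hx]
    _ = ∑ j : Fin n, ∑ x, (if deg g x ≤ K ∧ g x j ∧ b ≤ deg g (f x j) then F (f x j) else 0) := by
        rw [Finset.sum_comm]
    _ = ∑ j : Fin n, ∑ u, (if deg g (f u j) ≤ K ∧ g u j ∧ b ≤ deg g u then F u else 0) := by
        apply Finset.sum_congr rfl; intro j _
        rw [← sum_flip hf j (fun u => if deg g (f u j) ≤ K ∧ g u j ∧ b ≤ deg g u then F u else 0)]
        apply Finset.sum_congr rfl; intro x _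
        simp only [hf, hg]
    _ = ∑ u, ∑ j : Fin n, (if deg g (f u j) ≤ K ∧ g u j ∧ b ≤ deg g u then F u else 0) := by
        rw [Finset.sum_comm]
    _ = ∑ u, (if b ≤ deg g u then (sm f g K u : ℝ) * F u else 0) := by
        apply Finset.sum_congr rfl; intro u _
        rw [h2]
        by_cases hu : b ≤ deg g u
        · simp only [hu, and_true, if_true]
          apply Finset.sum_congr rfl; intro j _
          by_cases h : g u j <;> by_cases h' : deg g (f u j) ≤ K <;> simp [h, h']
        · simp [hu]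

omit [Fintype V] in
lemma sm_add_bt {K b : ℕ} (hKb : K < b) (u : V) : sm f g K u + bt f g b u ≤ deg g u := by
  unfold sm bt deg
  rw [← card_union_of_disjoint]
  · apply card_le_card
    intro i hi
    simp only [mem_union, mem_filter, mem_univ, true_and] at hi ⊢
    tauto
  · rw [Finset.disjoint_filter]
    intro i _ h1 h2
    omega

omit [Fintype V] in
lemma deg_le (u : V) : deg g u ≤ n := by
  unfold deg
  exact (card_le_univ _).trans (by simp)

lemma claimD {K b : ℕ} (hKb : K < b) (hf : ∀ v i, f (f v i) i = v)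
    (hg : ∀ v i, g (f v i) i ↔ g v i) :
    2 * ∑ u ∈ univ.filter (fun u => b ≤ deg g u), (sm f g K u : ℝ) +
      ∑ u ∈ univ.filter (fun u => b ≤ deg g u), (bt f g b u : ℝ) ≤ ∑ v, (deg g v : ℝ) := by
  have h1 := claimC (f := f) (g := g) K b hf hg (fun _ => 1)
  simp only [mul_one, Finset.sum_const, nsmul_eq_mul] at h1
  have h2 : ∑ x ∈ univ.filter (fun x => deg g x ≤ K), ((NB f g b x).card : ℝ) ≤
      ∑ x ∈ univ.filter (fun x => deg g x ≤ K), (deg g x : ℝ) := by
    apply Finset.sum_le_sum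
    intro x _
    have : (NB f g b x).card ≤ deg g x := by
      apply card_le_card
      intro i hi
      simp only [NB, mem_filter, mem_univ, true_and] at hi ⊢
      exact hi.1
    exact_mod_cast this
  have h3 : ∑ u ∈ univ.filter (fun u => b ≤ deg g u), (sm f g K u : ℝ) +
      ∑ u ∈ univ.filter (fun u => b ≤ deg g u), (bt f g b u : ℝ) ≤
      ∑ u ∈ univ.filter (fun u => b ≤ deg g u), (deg g u : ℝ) := by
    rw [← Finset.sum_add_distrib]
    apply Finset.sum_le_sum
    intro u _
    exact_mod_cast sm_add_bt (f := f) (g := g) hKb u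
  have h4 : ∑ x ∈ univ.filter (fun x => deg g x ≤ K), (deg g x : ℝ) +
      ∑ u ∈ univ.filter (fun u => b ≤ deg g u), (deg g u : ℝ) ≤ ∑ v, (deg g v : ℝ) := by
    rw [← Finset.sum_union]
    · apply Finset.sum_le_univ_sum_of_nonneg
      intro v; positivity
    · rw [Finset.disjoint_filter]
      intro i _ h1 h2
      omega
  linarith

omit [Fintype V] in
lemma pointwise {K b : ℕ} (hKb : K < b) (hn : 0 < n) (hf : ∀ v i, f (f v i) i = v)
    (hg : ∀ v i, g (f v i) i ↔ g v i)
    (hss : ∀ x i, ¬ g x i → ∃ j, g x j ∧ g (f x j) i ∧ g (f (f x j) i) j)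
    {x : V} (hx : deg g x ≤ K) :
    3 - 15 * (((K : ℝ) + K * b + tau f g b x) / n) ≤
      ∑ j ∈ NB f g b x, (1 + (bt f g b (f x j) : ℝ) / (2 * sm f g K (f x j))) := by
  have hA := claimA (f := f) (g := g) K b hss hx
  have hn' : (0 : ℝ) < n := by exact_mod_cast hn
  have hA' : (n : ℝ) ≤ ((K : ℝ) + K * b + tau f g b x) +
      ∑ j ∈ NB f g b x, (bt f g b (f x j) : ℝ) := by
    have : ((n : ℕ) : ℝ) ≤ ((K + K * b + tau f g b x +
      ∑ j ∈ NB f g b x, bt f g b (f x j) : ℕ) : ℝ) := by exact_mod_cast hA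
    push_cast at this
    linarith
  set q : ℝ := ((K : ℝ) + K * b + tau f g b x) / n with hq
  have hq0 : 0 ≤ q := by positivity
  have hqn : ((K : ℝ) + K * b + tau f g b x) = q * n := by
    rw [hq]; field_simp
  rw [hqn] at hA'
  -- facts about neighbours
  have hs1 : ∀ j ∈ NB f g b x, (1 : ℝ) ≤ sm f g K (f x j) := by
    intro j hj
    simp only [NB, mem_filter, mem_univ, true_and] at hj
    have : 0 < sm f g K (f x j) := by
      unfold sm
      rw [Finset.card_pos]
      refine ⟨j, ?_⟩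
      simp only [mem_filter, mem_univ, true_and, hf, hg]
      exact ⟨hj.1, hx⟩
    exact_mod_cast this
  have hsb : ∀ u : V, (sm f g K u : ℝ) + bt f g b u ≤ n := by
    intro u
    exact_mod_cast (sm_add_bt (f := f) (g := g) hKb u).trans (deg_le u)
  have hnn : 0 ≤ ∑ j ∈ NB f g b x, (1 + (bt f g b (f x j) : ℝ) / (2 * sm f g K (f x j))) := by
    apply Finset.sum_nonneg
    intro j _
    positivity
  by_cases hq5 : 1 / 5 ≤ q
  · linarith
  push Not at hq5
  have htan : ∀ j ∈ NB f g b x, 1 / 2 + 2 * ((bt f g b (f x j) : ℝ) / n) ≤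
      1 + (bt f g b (f x j) : ℝ) / (2 * sm f g K (f x j)) := by
    intro j hj
    have h1 := hs1 j hj
    have h2 := hsb (f x j)
    set s : ℝ := (sm f g K (f x j) : ℝ)
    set β : ℝ := (bt f g b (f x j) : ℝ)
    have hβ : 0 ≤ β := by positivity
    have hs : 0 < s := by linarith
    have h3 : β / n ≤ β / (s + β) := by
      apply div_le_div_of_nonneg_left hβ (by positivity) h2
    have h4 : 1 / 2 + 2 * (β / (s + β)) ≤ 1 + β / (2 * s) := by
      rw [← sub_nonneg]
      have : 1 + β / (2 * s) - (1 / 2 + 2 * (β / (s + β))) = (s - β) ^ 2 / (2 * s * (s + β)) := by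
        field_simp
        ring
      rw [this]
      positivity
    linarith
  have hcard : (NB f g b x).Nonempty := by
    by_contra hne
    rw [Finset.not_nonempty_iff_eq_empty] at hne
    rw [hne, Finset.sum_empty] at hA'
    nlinarith
  rcases Nat.lt_or_ge 1 (NB f g b x).card with h2 | h2
  · have h3 := Finset.sum_le_sum htan
    rw [Finset.sum_add_distrib, Finset.sum_const, ← Finset.mul_sum, ← Finset.sum_div,
      nsmul_eq_mul] at h3
    have h4 : 1 - q ≤ (∑ j ∈ NB f g b x, (bt f g b (f x j) : ℝ)) / n := by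
      rw [le_div_iff₀ hn']
      linarith
    have h5 : (2 : ℝ) ≤ (NB f g b x).card := by exact_mod_cast h2
    linarith
  · have h3 : (NB f g b x).card = 1 := le_antisymm h2 (Finset.card_pos.2 hcard)
    obtain ⟨j, hj⟩ := Finset.card_eq_one.1 h3
    have hjm : j ∈ NB f g b x := by rw [hj]; simp
    have h1 := hs1 j hjm
    have h2 := hsb (f x j)
    rw [hj, Finset.sum_singleton] at hA' ⊢
    set s : ℝ := (sm f g K (f x j) : ℝ)
    set β : ℝ := (bt f g b (f x j) : ℝ)
    have h4 : 2 ≤ β / (2 * s) := by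
      rw [le_div_iff₀ (by linarith)]
      nlinarith
    linarith


/-- number of neighbours which are neither small nor big -/
noncomputable def md (f : V → Fin n → V) (g : V → Fin n → Prop) (K b : ℕ) (u : V) : ℕ :=
  (univ.filter fun j => g u j ∧ (¬ deg g (f u j) ≤ K ∧ ¬ b ≤ deg g (f u j))).card

/-- number of big neighbours in directions `i` such that the rectangle in directions `i, j` has its
side opposite to `u` in direction `j` -/
noncomputable def rc (f : V → Fin n → V) (g : V → Fin n → Prop) (b : ℕ) (u : V) (j : Fin n) : ℕ :=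
  (univ.filter fun i => g u i ∧ b ≤ deg g (f u i) ∧ g (f u i) j).card

omit [Fintype V] in
lemma claimA' (K b : ℕ)
    (hss : ∀ x i, ¬ g x i → ∃ j, g x j ∧ g (f x j) i ∧ g (f (f x j) i) j)
    {x : V} (hx : deg g x ≤ K) :
    n ≤ K + K * b + tau f g b x + ∑ j ∈ NB f g b x, rc f g b (f x j) j := by
  have h1 : (univ : Finset (Fin n)) ⊆ (univ.filter fun i => g x i) ∪
      (univ.filter fun j => g x j).biUnion (fun j => univ.filter fun i => g (f x j) i ∧
        g (f (f x j) i) j) := by
    intro i _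
    by_cases h : g x i
    · exact mem_union_left _ (by simpa using h)
    · obtain ⟨j, h2, h3, h4⟩ := hss x i h
      apply mem_union_right
      rw [mem_biUnion]
      exact ⟨j, by simpa using h2, by simp [h3, h4]⟩
  have h2 : n ≤ deg g x + ∑ j ∈ univ.filter (fun j => g x j),
      (univ.filter fun i => g (f x j) i ∧ g (f (f x j) i) j).card := by
    calc n = (univ : Finset (Fin n)).card := by simp
      _ ≤ _ := card_le_card h1
      _ ≤ _ := card_union_le _ _
      _ ≤ _ := Nat.add_le_add_left card_biUnion_le _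
  have h3 : ∀ j ∈ univ.filter (fun j => g x j),
      (univ.filter fun i => g (f x j) i ∧ g (f (f x j) i) j).card ≤
      b + (if b ≤ deg g (f x j) then rc f g b (f x j) j else 0) +
      ∑ i : Fin n, if g x j ∧ g (f x j) i ∧ g (f (f x j) i) j ∧
        ¬ b ≤ deg g (f (f x j) i) then 1 else 0 := by
    intro j hj
    have hj' : g x j := by simpa using hj
    by_cases hb : b ≤ deg g (f x j)
    · rw [if_pos hb]
      have : (univ.filter fun i => g (f x j) i ∧ g (f (f x j) i) j) ⊆
          (univ.filter fun i => g (f x j) i ∧ b ≤ deg g (f (f x j) i) ∧ g (f (f x j) i) j) ∪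
          (univ.filter fun i => g x j ∧ g (f x j) i ∧ g (f (f x j) i) j ∧
        ¬ b ≤ deg g (f (f x j) i)) := by
        intro i hi
        simp only [mem_filter, mem_univ, true_and, mem_union] at hi ⊢
        by_cases h : b ≤ deg g (f (f x j) i)
        · exact Or.inl ⟨hi.1, h, hi.2⟩
        · exact Or.inr ⟨hj', hi.1, hi.2, h⟩
      have h4 := (card_le_card this).trans (card_union_le _ _)
      rw [← card_filter]
      unfold rc
      omega
    · rw [if_neg hb]
      have h5 : (univ.filter fun i => g (f x j) i ∧ g (f (f x j) i) j).card ≤ deg g (f x j) := by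
        apply card_le_card
        intro i hi
        simp only [mem_filter, mem_univ, true_and] at hi ⊢
        exact hi.1
      omega
  have h4 := Finset.sum_le_sum h3
  rw [Finset.sum_add_distrib, Finset.sum_add_distrib, Finset.sum_const] at h4
  have h5 : ∑ j ∈ univ.filter (fun j => g x j),
      (if b ≤ deg g (f x j) then rc f g b (f x j) j else 0) =
      ∑ j ∈ NB f g b x, rc f g b (f x j) j := by
    rw [← Finset.sum_filter, Finset.filter_filter]
    rfl
  have h6 : ∑ j ∈ univ.filter (fun j => g x j), (∑ i : Fin n, if g x j ∧ g (f x j) i ∧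
      g (f (f x j) i) j ∧ ¬ b ≤ deg g (f (f x j) i) then 1 else 0) ≤ tau f g b x := by
    unfold tau
    exact Finset.sum_le_univ_sum_of_nonneg (fun _ => Nat.zero_le _)
  have h7 : (univ.filter (fun j => g x j)).card • b ≤ K * b := by
    rw [smul_eq_mul]
    exact Nat.mul_le_mul_right _ hx
  rw [h5] at h4
  omega

/-- double counting of the edges between the vertices with property `P` and the big vertices -/
lemma claimP (b : ℕ) (P : V → Prop) [DecidablePred P] (hf : ∀ v i, f (f v i) i = v)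
    (hg : ∀ v i, g (f v i) i ↔ g v i) (F : V → Fin n → ℕ) :
    ∑ x ∈ univ.filter (fun x => P x), ∑ j ∈ NB f g b x, F (f x j) j =
    ∑ u ∈ univ.filter (fun u => b ≤ deg g u), ∑ j ∈ univ.filter (fun j => g u j ∧ P (f u j)),
      F u j := by
  rw [Finset.sum_filter, Finset.sum_filter]
  calc ∑ x, (if P x then ∑ j ∈ NB f g b x, F (f x j) j else 0)
      = ∑ x, ∑ j : Fin n, (if P x ∧ g x j ∧ b ≤ deg g (f x j) then F (f x j) j else 0) := by
        apply Finset.sum_congr rfl; intro x _
        unfold NB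
        rw [Finset.sum_filter]
        by_cases hx : P x
        · simp [hx]
        · simp [hx]
    _ = ∑ j : Fin n, ∑ x, (if P x ∧ g x j ∧ b ≤ deg g (f x j) then F (f x j) j else 0) := by
        rw [Finset.sum_comm]
    _ = ∑ j : Fin n, ∑ u, (if P (f u j) ∧ g u j ∧ b ≤ deg g u then F u j else 0) := by
        apply Finset.sum_congr rfl; intro j _
        rw [← sum_flip hf j (fun u => if P (f u j) ∧ g u j ∧ b ≤ deg g u then F u j else 0)]
        apply Finset.sum_congr rfl; intro x _
        simp only [hf, hg]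
    _ = ∑ u, ∑ j : Fin n, (if P (f u j) ∧ g u j ∧ b ≤ deg g u then F u j else 0) := by
        rw [Finset.sum_comm]
    _ = ∑ u, (if b ≤ deg g u then ∑ j ∈ univ.filter (fun j => g u j ∧ P (f u j)), F u j
        else 0) := by
        apply Finset.sum_congr rfl; intro u _
        by_cases hu : b ≤ deg g u
        · rw [if_pos hu, Finset.sum_filter]
          apply Finset.sum_congr rfl; intro j _
          by_cases h : g u j <;> by_cases h' : P (f u j) <;> simp [h, h', hu]
        · simp [hu]

/-- edges between big vertices -/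
lemma sumI (b : ℕ) (hf : ∀ v i, f (f v i) i = v)
    (hg : ∀ v i, g (f v i) i ↔ g v i) (G : V → ℕ) :
    ∑ u ∈ univ.filter (fun u => b ≤ deg g u), ∑ i ∈ NB f g b u, G (f u i) =
    ∑ w ∈ univ.filter (fun u => b ≤ deg g u), bt f g b w * G w := by
  rw [claimP b (fun u => b ≤ deg g u) hf hg (fun u _ => G u)]
  apply Finset.sum_congr rfl
  intro w _
  rw [Finset.sum_const, smul_eq_mul]
  rfl

/-- the number of edges -/
lemma claimD' {K b : ℕ} (hKb : K < b) (hf : ∀ v i, f (f v i) i = v)
    (hg : ∀ v i, g (f v i) i ↔ g v i) :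
    2 * ∑ u ∈ univ.filter (fun u => b ≤ deg g u), sm f g K u +
      ∑ u ∈ univ.filter (fun u => b ≤ deg g u), bt f g b u +
      2 * ∑ u ∈ univ.filter (fun u => b ≤ deg g u), md f g K b u ≤ ∑ v, deg g v := by
  have h1 := claimP (f := f) (g := g) b (fun x => deg g x ≤ K) hf hg (fun _ _ => 1)
  have h1' := claimP (f := f) (g := g) b (fun x => ¬ deg g x ≤ K ∧ ¬ b ≤ deg g x) hf hg
    (fun _ _ => 1)
  simp only [Finset.sum_const, smul_eq_mul, mul_one] at h1 h1'
  have hnb : ∀ x, (NB f g b x).card ≤ deg g x := by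
    intro x
    apply card_le_card
    intro i hi
    simp only [NB, mem_filter, mem_univ, true_and] at hi ⊢
    exact hi.1
  have h2 : ∑ x ∈ univ.filter (fun x => deg g x ≤ K), (NB f g b x).card ≤
      ∑ x ∈ univ.filter (fun x => deg g x ≤ K), deg g x := Finset.sum_le_sum fun x _ => hnb x
  have h2' : ∑ x ∈ univ.filter (fun x => ¬ deg g x ≤ K ∧ ¬ b ≤ deg g x), (NB f g b x).card ≤
      ∑ x ∈ univ.filter (fun x => ¬ deg g x ≤ K ∧ ¬ b ≤ deg g x), deg g x :=
    Finset.sum_le_sum fun x _ => hnb x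
  have h3 : ∑ u ∈ univ.filter (fun u => b ≤ deg g u), sm f g K u +
      ∑ u ∈ univ.filter (fun u => b ≤ deg g u), bt f g b u +
      ∑ u ∈ univ.filter (fun u => b ≤ deg g u), md f g K b u ≤
      ∑ u ∈ univ.filter (fun u => b ≤ deg g u), deg g u := by
    rw [← Finset.sum_add_distrib, ← Finset.sum_add_distrib]
    apply Finset.sum_le_sum
    intro u _
    unfold sm bt md
    rw [← card_union_of_disjoint, ← card_union_of_disjoint]
    · apply card_le_card
      intro i hi
      simp only [mem_union, mem_filter, mem_univ, true_and] at hi ⊢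
      tauto
    · rw [Finset.disjoint_left]
      intro i h1 h2
      simp only [mem_union, mem_filter, mem_univ, true_and] at h1 h2
      tauto
    · rw [Finset.disjoint_filter]
      intro i _ h1 h2
      omega
  have h4 : ∑ x ∈ univ.filter (fun x => deg g x ≤ K), deg g x +
      ∑ x ∈ univ.filter (fun x => ¬ deg g x ≤ K ∧ ¬ b ≤ deg g x), deg g x +
      ∑ u ∈ univ.filter (fun u => b ≤ deg g u), deg g u ≤ ∑ v, deg g v := by
    rw [← Finset.sum_union, ← Finset.sum_union]
    · exact Finset.sum_le_univ_sum_of_nonneg (fun _ => Nat.zero_le _)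
    · rw [Finset.disjoint_left]
      intro i h1 h2
      simp only [mem_union, mem_filter, mem_univ, true_and] at h1 h2
      rcases h1 with h1 | h1
      · omega
      · exact h1.2 h2
    · rw [Finset.disjoint_filter]
      intro i _ h1 h2
      exact h2.1 h1
  have e1 : ∑ u ∈ univ.filter (fun u => b ≤ deg g u),
      (univ.filter fun j => g u j ∧ deg g (f u j) ≤ K).card =
      ∑ u ∈ univ.filter (fun u => b ≤ deg g u), sm f g K u := rfl
  have e2 : ∑ u ∈ univ.filter (fun u => b ≤ deg g u),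
      (univ.filter fun j => g u j ∧ (¬ deg g (f u j) ≤ K ∧ ¬ b ≤ deg g (f u j))).card =
      ∑ u ∈ univ.filter (fun u => b ≤ deg g u), md f g K b u := rfl
  rw [e1] at h1
  rw [e2] at h1'
  omega

omit [Fintype V] in
/-- the rectangles at `u`, summed in the other order -/
lemma rect_swap (K b : ℕ) (u : V) :
    ∑ j ∈ univ.filter (fun j => g u j ∧ deg g (f u j) ≤ K), rc f g b u j =
    ∑ i ∈ NB f g b u, (univ.filter fun j => g u j ∧ deg g (f u j) ≤ K ∧ g (f u i) j).card := by
  unfold rc NB
  simp only [card_filter]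
  rw [Finset.sum_filter, Finset.sum_filter]
  calc ∑ j : Fin n, (if g u j ∧ deg g (f u j) ≤ K then
        ∑ i : Fin n, (if g u i ∧ b ≤ deg g (f u i) ∧ g (f u i) j then 1 else 0) else 0)
      = ∑ j : Fin n, ∑ i : Fin n, (if (g u j ∧ deg g (f u j) ≤ K) ∧
          (g u i ∧ b ≤ deg g (f u i) ∧ g (f u i) j) then 1 else 0) := by
        apply Finset.sum_congr rfl; intro j _
        by_cases h : g u j ∧ deg g (f u j) ≤ K
        · simp [h]
        · simp [h]
    _ = ∑ i : Fin n, ∑ j : Fin n, (if (g u j ∧ deg g (f u j) ≤ K) ∧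
          (g u i ∧ b ≤ deg g (f u i) ∧ g (f u i) j) then 1 else 0) := Finset.sum_comm
    _ = _ := by
        apply Finset.sum_congr rfl; intro i _
        by_cases h : g u i ∧ b ≤ deg g (f u i)
        · rw [if_pos h]
          apply Finset.sum_congr rfl; intro j _
          congr 1
          simp only [eq_iff_iff]
          tauto
        · rw [if_neg h]
          apply Finset.sum_eq_zero; intro j _
          rw [if_neg]
          tauto

omit [Fintype V] in
/-- pairs of adjacent big vertices -/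
lemma pair_bound {K b : ℕ} (hKb : K < b) (u : V) (i : Fin n) :
    (univ.filter fun j => g u j ∧ deg g (f u j) ≤ K ∧ g (f u i) j).card +
      bt f g b u + bt f g b (f u i) ≤ n + ((NB f g b u) ∩ (NB f g b (f u i))).card +
      md f g K b (f u i) +
      (univ.filter fun j => g u j ∧ deg g (f u j) ≤ K ∧ b ≤ deg g (f (f u i) j)).card := by
  set A1 := univ.filter fun j => g u j ∧ deg g (f u j) ≤ K ∧ g (f u i) j ∧
    deg g (f (f u i) j) ≤ K with hA1
  have h1 : (univ.filter fun j => g u j ∧ deg g (f u j) ≤ K ∧ g (f u i) j) ⊆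
      (A1 ∪ (univ.filter fun j => g (f u i) j ∧ (¬ deg g (f (f u i) j) ≤ K ∧
        ¬ b ≤ deg g (f (f u i) j)))) ∪
      (univ.filter fun j => g u j ∧ deg g (f u j) ≤ K ∧ b ≤ deg g (f (f u i) j)) := by
    intro j hj
    simp only [hA1, mem_union, mem_filter, mem_univ, true_and] at hj ⊢
    tauto
  have h2 := (card_le_card h1).trans ((card_union_le _ _).trans
    (Nat.add_le_add_right (card_union_le _ _) _))
  have h3 : A1.card + (NB f g b u ∪ NB f g b (f u i)).card ≤ n := by
    rw [← card_union_of_disjoint]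
    · exact (card_le_univ _).trans (by simp)
    · rw [Finset.disjoint_left]
      intro j h4 h5
      simp only [hA1, NB, mem_union, mem_filter, mem_univ, true_and] at h4 h5
      rcases h5 with h5 | h5
      · have := h5.2; have := h4.2.1; omega
      · have := h5.2; have := h4.2.2.2; omega
  have h4 := card_union_add_card_inter (NB f g b u) (NB f g b (f u i))
  have h5 : (NB f g b u).card = bt f g b u := rfl
  have h6 : (NB f g b (f u i)).card = bt f g b (f u i) := rfl
  have h7 : (univ.filter fun j => g (f u i) j ∧ (¬ deg g (f (f u i) j) ≤ K ∧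
        ¬ b ≤ deg g (f (f u i) j))).card = md f g K b (f u i) := rfl
  rw [h7] at h2
  rw [h5, h6] at h4
  omega

omit [Fintype V] in
/-- the graph of the big vertices has few pairs with common directions, if there is no square -/
lemma sqf (b : ℕ) (hsf : ∀ u i j, i ≠ j → g u i → g u j → g (f u i) j → g (f u j) i → False)
    (u : V) : 2 * ∑ i ∈ NB f g b u, ((NB f g b u) ∩ (NB f g b (f u i))).card ≤
      bt f g b u * bt f g b u + bt f g b u := by
  have h1 : ∀ i, ((NB f g b u) ∩ (NB f g b (f u i))).card ≤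
      ∑ j ∈ NB f g b u, if g (f u i) j then 1 else 0 := by
    intro i
    rw [← card_filter]
    apply card_le_card
    intro j hj
    rw [mem_inter] at hj
    rw [mem_filter]
    refine ⟨hj.1, ?_⟩
    have := hj.2
    simp only [NB, mem_filter, mem_univ, true_and] at this
    exact this.1
  have h2 : ∑ i ∈ NB f g b u, ((NB f g b u) ∩ (NB f g b (f u i))).card ≤
      ∑ i ∈ NB f g b u, ∑ j ∈ NB f g b u, (if g (f u i) j then 1 else 0) :=
    Finset.sum_le_sum fun i _ => h1 i
  have h3 : ∑ i ∈ NB f g b u, ∑ j ∈ NB f g b u, (if g (f u i) j then 1 else 0) =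
      ∑ i ∈ NB f g b u, ∑ j ∈ NB f g b u, (if g (f u j) i then 1 else 0) := Finset.sum_comm
  have h4 : ∑ i ∈ NB f g b u, ∑ j ∈ NB f g b u,
      ((if g (f u i) j then 1 else 0) + (if g (f u j) i then 1 else 0)) ≤
      ∑ i ∈ NB f g b u, ∑ j ∈ NB f g b u, (1 + if i = j then 1 else 0) := by
    apply Finset.sum_le_sum; intro i hi
    apply Finset.sum_le_sum; intro j hj
    simp only [NB, mem_filter, mem_univ, true_and] at hi hj
    by_cases hij : i = j
    · rw [if_pos hij]; split_ifs <;> omega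
    · have := hsf u i j hij hi.1 hj.1
      rw [if_neg hij]
      by_cases h5 : g (f u i) j
      · rw [if_pos h5, if_neg (fun h => this h5 h)]
      · rw [if_neg h5]; split_ifs <;> omega
  have h5 : ∑ i ∈ NB f g b u, ∑ j ∈ NB f g b u, (1 + if i = j then 1 else 0) =
      bt f g b u * bt f g b u + bt f g b u := by
    have h6 : (NB f g b u).card = bt f g b u := rfl
    simp only [Finset.sum_add_distrib, Finset.sum_const, smul_eq_mul, mul_one, h6]
    congr 1
    rw [← h6, Finset.card_eq_sum_ones]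
    apply Finset.sum_congr rfl
    intro i hi
    rw [Finset.sum_ite_eq, if_pos hi]
  have h7 : ∑ i ∈ NB f g b u, ∑ j ∈ NB f g b u,
      ((if g (f u i) j then 1 else 0) + (if g (f u j) i then 1 else 0)) =
      ∑ i ∈ NB f g b u, ∑ j ∈ NB f g b u, (if g (f u i) j then 1 else 0) +
      ∑ i ∈ NB f g b u, ∑ j ∈ NB f g b u, (if g (f u j) i then 1 else 0) := by
    simp only [Finset.sum_add_distrib]
  omega

/-- few small vertices have a big vertex opposite -/
lemma kappa (K b : ℕ) (hf : ∀ v i, f (f v i) i = v) (hc : ∀ v i j, f (f v i) j = f (f v j) i)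
    (hg : ∀ v i, g (f v i) i ↔ g v i) :
    ∑ u ∈ univ.filter (fun u => b ≤ deg g u), ∑ i ∈ NB f g b u,
      (univ.filter fun j => g u j ∧ deg g (f u j) ≤ K ∧ b ≤ deg g (f (f u i) j)).card ≤
    (univ.filter (fun u => b ≤ deg g u)).card * (n * K) := by
  calc ∑ u ∈ univ.filter (fun u => b ≤ deg g u), ∑ i ∈ NB f g b u,
      (univ.filter fun j => g u j ∧ deg g (f u j) ≤ K ∧ b ≤ deg g (f (f u i) j)).card
      ≤ ∑ u : V, ∑ i : Fin n, ∑ j : Fin n,
        (if g u j ∧ deg g (f u j) ≤ K ∧ b ≤ deg g (f (f u i) j) then 1 else 0) := by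
        simp only [card_filter]
        refine (Finset.sum_le_sum fun u _ => Finset.sum_le_univ_sum_of_nonneg
          (fun _ => Nat.zero_le _)).trans ?_
        exact Finset.sum_le_univ_sum_of_nonneg (fun _ => Nat.zero_le _)
    _ = ∑ i : Fin n, ∑ j : Fin n, ∑ u : V,
        (if g u j ∧ deg g (f u j) ≤ K ∧ b ≤ deg g (f (f u i) j) then 1 else 0) := by
        rw [Finset.sum_comm]
        apply Finset.sum_congr rfl; intro i _
        rw [Finset.sum_comm]
    _ = ∑ i : Fin n, ∑ j : Fin n, ∑ y : V,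
        (if g (f y i) j ∧ deg g (f y i) ≤ K ∧ b ≤ deg g y then 1 else 0) := by
        apply Finset.sum_congr rfl; intro i _
        apply Finset.sum_congr rfl; intro j _
        rw [← sum_flip hf j (fun y => if g (f y i) j ∧ deg g (f y i) ≤ K ∧ b ≤ deg g y
            then 1 else 0),
          ← sum_flip hf i (fun y => if g (f (f y j) i) j ∧ deg g (f (f y j) i) ≤ K ∧
            b ≤ deg g (f y j) then 1 else 0)]
        apply Finset.sum_congr rfl; intro u _
        have e : f (f (f u i) j) i = f u j := by rw [hc u i j, hf]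
        rw [e]
        simp only [hg]
    _ = ∑ y : V, ∑ i : Fin n, ∑ j : Fin n,
        (if g (f y i) j ∧ deg g (f y i) ≤ K ∧ b ≤ deg g y then 1 else 0) := by
        symm
        rw [Finset.sum_comm]
        apply Finset.sum_congr rfl; intro i _
        rw [Finset.sum_comm]
    _ ≤ ∑ y : V, (if b ≤ deg g y then n * K else 0) := by
        apply Finset.sum_le_sum; intro y _
        by_cases hy : b ≤ deg g y
        · rw [if_pos hy]
          have : ∀ i ∈ (univ : Finset (Fin n)), ∑ j : Fin n,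
              (if g (f y i) j ∧ deg g (f y i) ≤ K ∧ b ≤ deg g y then 1 else 0) ≤ K := by
            intro i _
            by_cases hi : deg g (f y i) ≤ K
            · rw [← card_filter]
              refine le_trans (card_le_card ?_) hi
              intro j hj
              rw [mem_filter] at hj ⊢
              exact ⟨hj.1, hj.2.1⟩
            · rw [Finset.sum_eq_zero]
              · exact Nat.zero_le _
              · intro j _
                rw [if_neg]; tauto
          refine (Finset.sum_le_sum this).trans ?_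
          rw [Finset.sum_const, smul_eq_mul]; simp
        · rw [if_neg hy]
          apply le_of_eq
          apply Finset.sum_eq_zero; intro i _
          apply Finset.sum_eq_zero; intro j _
          rw [if_neg]; tauto
    _ = _ := by rw [← Finset.sum_filter, Finset.sum_const, smul_eq_mul]

/-- the upper bound for the number of rectangles in a graph without squares -/
lemma upperR {K b : ℕ} (hKb : K < b) (hf : ∀ v i, f (f v i) i = v)
    (hc : ∀ v i j, f (f v i) j = f (f v j) i) (hg : ∀ v i, g (f v i) i ↔ g v i)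
    (hsf : ∀ u i j, i ≠ j → g u i → g u j → g (f u i) j → g (f u j) i → False) :
    2 * ∑ u ∈ univ.filter (fun u => b ≤ deg g u),
      ∑ j ∈ univ.filter (fun j => g u j ∧ deg g (f u j) ≤ K), rc f g b u j +
      3 * ∑ u ∈ univ.filter (fun u => b ≤ deg g u), bt f g b u * bt f g b u ≤
    (2 * n + 1) * ∑ u ∈ univ.filter (fun u => b ≤ deg g u), bt f g b u +
      2 * (n * ∑ u ∈ univ.filter (fun u => b ≤ deg g u), md f g K b u) +
      2 * ((univ.filter (fun u => b ≤ deg g u)).card * (n * K)) := by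
  have h1 : ∑ u ∈ univ.filter (fun u => b ≤ deg g u), ∑ i ∈ NB f g b u,
      ((univ.filter fun j => g u j ∧ deg g (f u j) ≤ K ∧ g (f u i) j).card +
      bt f g b u + bt f g b (f u i)) ≤
      ∑ u ∈ univ.filter (fun u => b ≤ deg g u), ∑ i ∈ NB f g b u,
      (n + ((NB f g b u) ∩ (NB f g b (f u i))).card +
      md f g K b (f u i) +
      (univ.filter fun j => g u j ∧ deg g (f u j) ≤ K ∧ b ≤ deg g (f (f u i) j)).card) :=
    Finset.sum_le_sum fun u _ => Finset.sum_le_sum fun i _ => pair_bound hKb u i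
  simp only [Finset.sum_add_distrib] at h1
  have hb : ∀ u, (NB f g b u).card = bt f g b u := fun u => rfl
  have h2 : ∑ u ∈ univ.filter (fun u => b ≤ deg g u), ∑ _i ∈ NB f g b u, bt f g b u =
      ∑ u ∈ univ.filter (fun u => b ≤ deg g u), bt f g b u * bt f g b u := by
    apply Finset.sum_congr rfl; intro u _
    rw [Finset.sum_const, smul_eq_mul, hb]
  have h3 := sumI (f := f) (g := g) b hf hg (fun w => bt f g b w)
  have h4 := sumI (f := f) (g := g) b hf hg (fun w => md f g K b w)
  have h5 : ∑ u ∈ univ.filter (fun u => b ≤ deg g u), ∑ _i ∈ NB f g b u, n =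
      n * ∑ u ∈ univ.filter (fun u => b ≤ deg g u), bt f g b u := by
    rw [Finset.mul_sum]
    apply Finset.sum_congr rfl; intro u _
    rw [Finset.sum_const, smul_eq_mul, hb, mul_comm]
  have h6 : ∑ u ∈ univ.filter (fun u => b ≤ deg g u), bt f g b u * md f g K b u ≤
      n * ∑ u ∈ univ.filter (fun u => b ≤ deg g u), md f g K b u := by
    rw [Finset.mul_sum]
    apply Finset.sum_le_sum; intro u _
    apply Nat.mul_le_mul_right
    unfold bt
    exact (card_le_univ _).trans (by simp)
  have h7 := kappa (f := f) (g := g) K b hf hc hg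
  have h8 : 2 * ∑ u ∈ univ.filter (fun u => b ≤ deg g u), ∑ i ∈ NB f g b u,
      ((NB f g b u) ∩ (NB f g b (f u i))).card ≤
      ∑ u ∈ univ.filter (fun u => b ≤ deg g u), bt f g b u * bt f g b u +
      ∑ u ∈ univ.filter (fun u => b ≤ deg g u), bt f g b u := by
    rw [Finset.mul_sum, ← Finset.sum_add_distrib]
    exact Finset.sum_le_sum fun u _ => sqf b hsf u
  have h9 : ∑ u ∈ univ.filter (fun u => b ≤ deg g u),
      ∑ j ∈ univ.filter (fun j => g u j ∧ deg g (f u j) ≤ K), rc f g b u j =
      ∑ u ∈ univ.filter (fun u => b ≤ deg g u), ∑ i ∈ NB f g b u,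
      (univ.filter fun j => g u j ∧ deg g (f u j) ≤ K ∧ g (f u i) j).card :=
    Finset.sum_congr rfl fun u _ => rect_swap K b u
  rw [h9]
  rw [h2, h3, h4, h5] at h1
  nlinarith

/-- the trivial upper bound -/
lemma trivR (K b : ℕ) :
    ∑ u ∈ univ.filter (fun u => b ≤ deg g u),
      ∑ j ∈ univ.filter (fun j => g u j ∧ deg g (f u j) ≤ K), rc f g b u j ≤
    ∑ u ∈ univ.filter (fun u => b ≤ deg g u), sm f g K u * bt f g b u := by
  apply Finset.sum_le_sum; intro u _
  refine (Finset.sum_le_sum (g := fun _ => bt f g b u) fun j _ => ?_).trans ?_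
  · unfold rc bt
    apply card_le_card
    intro i hi
    rw [mem_filter] at hi ⊢
    exact ⟨hi.1, hi.2.1, hi.2.2.1⟩
  · rw [Finset.sum_const, smul_eq_mul]; rfl

/-- the lower bound for the number of rectangles -/
lemma lowR (K b : ℕ) (hf : ∀ v i, f (f v i) i = v) (hg : ∀ v i, g (f v i) i ↔ g v i)
    (hss : ∀ x i, ¬ g x i → ∃ j, g x j ∧ g (f x j) i ∧ g (f (f x j) i) j) :
    (univ.filter (fun x => deg g x ≤ K)).card * n ≤
    (univ.filter (fun x => deg g x ≤ K)).card * (K + K * b) + b * ∑ v, deg g v +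
    ∑ u ∈ univ.filter (fun u => b ≤ deg g u),
      ∑ j ∈ univ.filter (fun j => g u j ∧ deg g (f u j) ≤ K), rc f g b u j := by
  have h1 : ∑ x ∈ univ.filter (fun x => deg g x ≤ K), n ≤
      ∑ x ∈ univ.filter (fun x => deg g x ≤ K),
        (K + K * b + tau f g b x + ∑ j ∈ NB f g b x, rc f g b (f x j) j) :=
    Finset.sum_le_sum fun x hx => claimA' K b hss (by simpa using hx)
  rw [Finset.sum_add_distrib, Finset.sum_add_distrib, Finset.sum_const, Finset.sum_const,
    smul_eq_mul, smul_eq_mul,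
    claimP (f := f) (g := g) b (fun x => deg g x ≤ K) hf hg (fun u j => rc f g b u j)] at h1
  have h2 := claimB (f := f) (g := g) b hf hg
  have h3 : ∑ x ∈ univ.filter (fun x => deg g x ≤ K), tau f g b x ≤ ∑ x, tau f g b x :=
    Finset.sum_le_univ_sum_of_nonneg (fun _ => Nat.zero_le _)
  omega


omit [Fintype V] in
lemma pointwise2 {K b : ℕ} (hKb : K < b) (hn : 0 < n) (hf : ∀ v i, f (f v i) i = v)
    (hg : ∀ v i, g (f v i) i ↔ g v i)
    (hss : ∀ x i, ¬ g x i → ∃ j, g x j ∧ g (f x j) i ∧ g (f (f x j) i) j)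
    {η : ℝ} (hη : 0 < η) (hη2 : η ≤ 1 / 2) {x : V} (hx : deg g x ≤ K) :
    2 - 2 / η * (((K : ℝ) + K * b + tau f g b x) / n) ≤
      ∑ j ∈ NB f g b x, (1 + 2 * η * ((bt f g b (f x j) : ℝ) / sm f g K (f x j))) := by
  have hA := claimA (f := f) (g := g) K b hss hx
  have hn' : (0 : ℝ) < n := by exact_mod_cast hn
  have hA' : (n : ℝ) ≤ ((K : ℝ) + K * b + tau f g b x) +
      ∑ j ∈ NB f g b x, (bt f g b (f x j) : ℝ) := by
    have : ((n : ℕ) : ℝ) ≤ ((K + K * b + tau f g b x +
      ∑ j ∈ NB f g b x, bt f g b (f x j) : ℕ) : ℝ) := by exact_mod_cast hA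
    push_cast at this
    linarith
  set q : ℝ := ((K : ℝ) + K * b + tau f g b x) / n with hq
  have hq0 : 0 ≤ q := by positivity
  have hqn : ((K : ℝ) + K * b + tau f g b x) = q * n := by
    rw [hq]; field_simp
  rw [hqn] at hA'
  have hterm : ∀ j ∈ NB f g b x,
      (1 : ℝ) ≤ 1 + 2 * η * ((bt f g b (f x j) : ℝ) / sm f g K (f x j)) := by
    intro j _
    have : 0 ≤ 2 * η * ((bt f g b (f x j) : ℝ) / sm f g K (f x j)) := by positivity
    linarith
  have hnn := Finset.sum_le_sum hterm
  rw [Finset.sum_const, nsmul_eq_mul, mul_one] at hnn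
  have hc0 : (0 : ℝ) ≤ (NB f g b x).card := Nat.cast_nonneg _
  by_cases hq5 : η ≤ q
  · have : 2 ≤ 2 / η * q := by
      rw [div_mul_eq_mul_div, le_div_iff₀ hη]
      linarith
    linarith
  push Not at hq5
  have hq6 : 0 ≤ 2 / η * q := by positivity
  have hcard : (NB f g b x).Nonempty := by
    by_contra hne
    rw [Finset.not_nonempty_iff_eq_empty] at hne
    rw [hne, Finset.sum_empty] at hA'
    nlinarith
  rcases Nat.lt_or_ge 1 (NB f g b x).card with h2 | h2
  · have h5 : (2 : ℝ) ≤ (NB f g b x).card := by exact_mod_cast h2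
    linarith
  · have h3 : (NB f g b x).card = 1 := le_antisymm h2 (Finset.card_pos.2 hcard)
    obtain ⟨j, hj⟩ := Finset.card_eq_one.1 h3
    have hjm : j ∈ NB f g b x := by rw [hj]; simp
    have h1 : (1 : ℝ) ≤ sm f g K (f x j) := by
      simp only [NB, mem_filter, mem_univ, true_and] at hjm
      have : 0 < sm f g K (f x j) := by
        unfold sm
        rw [Finset.card_pos]
        refine ⟨j, ?_⟩
        simp only [mem_filter, mem_univ, true_and, hf, hg]
        exact ⟨hjm.1, hx⟩
      exact_mod_cast this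
    have h2 : (sm f g K (f x j) : ℝ) + bt f g b (f x j) ≤ n := by
      exact_mod_cast (sm_add_bt (f := f) (g := g) hKb (f x j)).trans (deg_le (f x j))
    rw [hj, Finset.sum_singleton] at hA' ⊢
    set s : ℝ := (sm f g K (f x j) : ℝ)
    set β : ℝ := (bt f g b (f x j) : ℝ)
    have h4 : s ≤ 2 * η * β := by nlinarith
    have h6 : 1 ≤ 2 * η * (β / s) := by
      rw [← mul_div_assoc, le_div_iff₀ (by linarith)]
      linarith
    linarith

/-- almost every small vertex has two big neighbours -/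
lemma lowS {K b : ℕ} (hKb : K < b) (hn : 0 < n) (hf : ∀ v i, f (f v i) i = v)
    (hg : ∀ v i, g (f v i) i ↔ g v i)
    (hss : ∀ x i, ¬ g x i → ∃ j, g x j ∧ g (f x j) i ∧ g (f (f x j) i) j)
    {η : ℝ} (hη : 0 < η) (hη2 : η ≤ 1 / 2) :
    2 * ((univ.filter (fun x => deg g x ≤ K)).card : ℝ) -
      2 / η * ((((K : ℝ) + K * b) * (univ.filter (fun x => deg g x ≤ K)).card +
        b * ∑ v, (deg g v : ℝ)) / n) ≤
    ∑ u ∈ univ.filter (fun u => b ≤ deg g u), (sm f g K u : ℝ) +
      2 * η * ∑ u ∈ univ.filter (fun u => b ≤ deg g u), (bt f g b u : ℝ) := by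
  have hn' : (0 : ℝ) < n := by exact_mod_cast hn
  set S := univ.filter (fun x : V => deg g x ≤ K) with hS
  have h2 := Finset.sum_le_sum (s := S) (fun x hx => pointwise2 (f := f) (g := g) hKb hn hf hg hss
      hη hη2 ((mem_filter.1 hx).2))
  have h3 := claimC (f := f) (g := g) K b hf hg
    (fun u => 1 + 2 * η * ((bt f g b u : ℝ) / sm f g K u))
  have h5 : ∑ u ∈ univ.filter (fun u => b ≤ deg g u),
      (sm f g K u : ℝ) * (1 + 2 * η * ((bt f g b u : ℝ) / sm f g K u)) ≤
      ∑ u ∈ univ.filter (fun u => b ≤ deg g u), ((sm f g K u : ℝ) + 2 * η * (bt f g b u : ℝ)) := by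
    apply Finset.sum_le_sum
    intro u _
    rcases Nat.eq_zero_or_pos (sm f g K u) with h | h
    · rw [h]; simp only [Nat.cast_zero, zero_mul, zero_add]; positivity
    · have h' : (sm f g K u : ℝ) ≠ 0 := by positivity
      apply le_of_eq
      field_simp
  rw [Finset.sum_add_distrib, ← Finset.mul_sum] at h5
  have h11 : ∑ x ∈ S, (tau f g b x : ℝ) ≤ b * ∑ v, (deg g v : ℝ) := by
    have h12 := claimB (f := f) (g := g) b hf hg
    have h13 : ∑ x ∈ S, (tau f g b x : ℝ) ≤ ∑ x, (tau f g b x : ℝ) := by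
      apply Finset.sum_le_univ_sum_of_nonneg
      intro v; positivity
    have h14 : ∑ x, (tau f g b x : ℝ) ≤ b * ∑ v, (deg g v : ℝ) := by
      exact_mod_cast h12
    linarith
  have h15 : ∑ x ∈ S, (2 - 2 / η * (((K : ℝ) + K * b + tau f g b x) / n)) =
      2 * S.card - 2 / η * ((((K : ℝ) + K * b) * S.card + ∑ x ∈ S, (tau f g b x : ℝ)) / n) := by
    rw [Finset.sum_sub_distrib, ← Finset.mul_sum, ← Finset.sum_div, Finset.sum_add_distrib,
      Finset.sum_const, Finset.sum_const]
    simp only [nsmul_eq_mul]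
    ring
  rw [h15] at h2
  have h16 : 2 / η * ((((K : ℝ) + K * b) * S.card + ∑ x ∈ S, (tau f g b x : ℝ)) / n) ≤
      2 / η * ((((K : ℝ) + K * b) * S.card + b * ∑ v, (deg g v : ℝ)) / n) := by
    apply mul_le_mul_of_nonneg_left _ (by positivity)
    apply div_le_div_of_nonneg_right _ hn'.le
    linarith
  linarith

set_option maxHeartbeats 4000000 in
lemma core2 {b : ℕ} (hb : 10 ^ 8 ≤ b) (hbn : b * b ≤ n) (hf : ∀ v i, f (f v i) i = v)
    (hc : ∀ v i j, f (f v i) j = f (f v j) i)
    (hg : ∀ v i, g (f v i) i ↔ g v i)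
    (hss : ∀ x i, ¬ g x i → ∃ j, g x j ∧ g (f x j) i ∧ g (f (f x j) i) j)
    (hsf : ∀ u i j, i ≠ j → g u i → g u j → g (f u i) j → g (f u j) i → False)
    {D : ℝ} (hD : D = ∑ v, (deg g v : ℝ)) :
    31 / 10 * (Fintype.card V : ℝ) ≤ D / 2 := by
  have hKb : 1000 < b := lt_of_lt_of_le (by norm_num) hb
  have hn0 : 0 < n := lt_of_lt_of_le (Nat.mul_pos (by omega) (by omega)) hbn
  have hn' : (0 : ℝ) < n := by exact_mod_cast hn0
  have hb' : (10 : ℝ) ^ 8 ≤ b := by exact_mod_cast hb
  have hbn' : (b : ℝ) * b ≤ n := by exact_mod_cast hbn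
  set N : ℝ := (Fintype.card V : ℝ) with hN
  have hN0 : 0 ≤ N := by positivity
  by_cases hD6 : D ≤ 64 / 10 * N
  swap
  · push Not at hD6
    linarith
  set Sf := univ.filter (fun x : V => deg g x ≤ 1000) with hSf
  set Bf := univ.filter (fun u : V => b ≤ deg g u) with hBf
  have hA := lowR (f := f) (g := g) 1000 b hf hg hss
  have hB := upperR (f := f) (g := g) hKb hf hc hg hsf
  have hC := trivR (f := f) (g := g) 1000 b
  have hE := claimD' (f := f) (g := g) hKb hf hg
  have hF := lowS (f := f) (g := g) hKb hn0 hf hg hss (η := 1 / 1000) (by norm_num) (by norm_num)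
  rw [← hSf] at hA hF
  rw [← hBf] at hA hB hC hE hF
  set R : ℕ := ∑ u ∈ Bf, ∑ j ∈ univ.filter (fun j => g u j ∧ deg g (f u j) ≤ 1000),
    rc f g b u j with hR
  have hA' : (Sf.card : ℝ) * n ≤ Sf.card * (1000 + 1000 * b) + b * D + R := by
    rw [hD]
    exact_mod_cast hA
  have hB' : 2 * (R : ℝ) + 3 * ∑ u ∈ Bf, (bt f g b u : ℝ) * bt f g b u ≤
      (2 * n + 1) * ∑ u ∈ Bf, (bt f g b u : ℝ) + 2 * (n * ∑ u ∈ Bf, (md f g 1000 b u : ℝ)) +
      2 * ((Bf.card : ℝ) * (n * 1000)) := by
    exact_mod_cast hB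
  have hC' : (R : ℝ) ≤ ∑ u ∈ Bf, (sm f g 1000 u : ℝ) * bt f g b u := by
    exact_mod_cast hC
  have hE' : 2 * ∑ u ∈ Bf, (sm f g 1000 u : ℝ) + ∑ u ∈ Bf, (bt f g b u : ℝ) +
      2 * ∑ u ∈ Bf, (md f g 1000 b u : ℝ) ≤ D := by
    rw [hD]
    exact_mod_cast hE
  rw [← hD] at hF
  have hG : 17 / 10 * ∑ u ∈ Bf, (sm f g 1000 u : ℝ) * bt f g b u +
      n / 2 * ∑ u ∈ Bf, (bt f g b u : ℝ) - 3 / 4 * ∑ u ∈ Bf, (bt f g b u : ℝ) * bt f g b u ≤
      n / 2 * (∑ u ∈ Bf, (sm f g 1000 u : ℝ) + ∑ u ∈ Bf, (bt f g b u : ℝ)) := by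
    rw [← Finset.sum_add_distrib, Finset.mul_sum, Finset.mul_sum, Finset.mul_sum, Finset.mul_sum,
      ← Finset.sum_add_distrib, ← Finset.sum_sub_distrib]
    apply Finset.sum_le_sum
    intro u _
    have h1 : (sm f g 1000 u : ℝ) + bt f g b u ≤ n := by
      exact_mod_cast (sm_add_bt (f := f) (g := g) hKb u).trans (deg_le u)
    have hs : (0 : ℝ) ≤ sm f g 1000 u := by positivity
    have hβ : (0 : ℝ) ≤ bt f g b u := by positivity
    nlinarith [mul_le_mul_of_nonneg_left h1 hs, sq_nonneg ((sm f g 1000 u : ℝ) -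
      12 / 10 * bt f g b u), sq_nonneg (bt f g b u : ℝ)]
  have hH : (Bf.card : ℝ) * b ≤ D := by
    have h7 : ∑ v ∈ Bf, (b : ℝ) ≤ D := by
      rw [hD]
      calc ∑ v ∈ Bf, (b : ℝ) ≤ ∑ v ∈ Bf, (deg g v : ℝ) := by
            apply Finset.sum_le_sum
            intro v hv
            exact_mod_cast (mem_filter.1 hv).2
        _ ≤ _ := by
            apply Finset.sum_le_univ_sum_of_nonneg
            intro v; positivity
    rw [Finset.sum_const, nsmul_eq_mul] at h7
    exact h7
  have hI : 1001 * N - D ≤ 1001 * (Sf.card : ℝ) := by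
    have h7 : ∑ v ∈ univ.filter (fun x : V => ¬ deg g x ≤ 1000), (1001 : ℝ) ≤ D := by
      rw [hD]
      calc ∑ v ∈ univ.filter (fun x : V => ¬ deg g x ≤ 1000), (1001 : ℝ)
          ≤ ∑ v ∈ univ.filter (fun x : V => ¬ deg g x ≤ 1000), (deg g v : ℝ) := by
            apply Finset.sum_le_sum
            intro v hv
            have h := (mem_filter.1 hv).2
            have h' : 1001 ≤ deg g v := by omega
            exact_mod_cast h'
        _ ≤ _ := by
            apply Finset.sum_le_univ_sum_of_nonneg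
            intro v; positivity
    rw [Finset.sum_const, nsmul_eq_mul] at h7
    have h8 := Finset.card_filter_add_card_filter_not (s := (univ : Finset V))
      (fun x => deg g x ≤ 1000)
    have h9 : (Sf.card : ℝ) + ((univ.filter (fun x : V => ¬ deg g x ≤ 1000)).card : ℝ) = N := by
      rw [hN, ← Finset.card_univ]
      exact_mod_cast h8
    linarith
  have hS' : (Sf.card : ℝ) ≤ N := by
    rw [hN, ← Finset.card_univ]
    exact_mod_cast card_le_card (Finset.subset_univ Sf)
  set S : ℝ := (Sf.card : ℝ)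
  set B : ℝ := (Bf.card : ℝ)
  set s : ℝ := ∑ u ∈ Bf, (sm f g 1000 u : ℝ)
  set β : ℝ := ∑ u ∈ Bf, (bt f g b u : ℝ)
  set M : ℝ := ∑ u ∈ Bf, (md f g 1000 b u : ℝ)
  set Q2 : ℝ := ∑ u ∈ Bf, (bt f g b u : ℝ) * bt f g b u
  set T : ℝ := ∑ u ∈ Bf, (sm f g 1000 u : ℝ) * bt f g b u
  have hs0 : 0 ≤ s := Finset.sum_nonneg fun _ _ => by positivity
  have hβ0 : 0 ≤ β := Finset.sum_nonneg fun _ _ => by positivity
  have hM0 : 0 ≤ M := Finset.sum_nonneg fun _ _ => by positivity
  have hB0 : 0 ≤ B := by positivity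
  have hS0 : 0 ≤ S := by positivity
  have hb0 : (0 : ℝ) < b := by linarith [show (0 : ℝ) < 10 ^ 8 by norm_num]
  -- clear the denominator in hF
  set E : ℝ := (1000 + 1000 * b) * S + b * D with hEdef
  have hF' : n * (2 * S) - 2000 * E ≤ n * (s + 2 / 1000 * β) := by
    have h1 : (2 : ℝ) * S - 2000 * (E / n) ≤ s + 2 / 1000 * β := by
      have h2 : (2 : ℝ) / (1 / 1000) = 2000 := by norm_num
      have h3 : (2 : ℝ) * (1 / 1000) = 2 / 1000 := by norm_num
      rw [h2, h3] at hF
      push_cast at hF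
      exact hF
    have h2 := mul_le_mul_of_nonneg_left h1 hn'.le
    have h3 : (n : ℝ) * (2 * S - 2000 * (E / n)) = n * (2 * S) - 2000 * E := by
      field_simp
    linarith
  -- numerical bounds
  have hnN : 0 ≤ (n : ℝ) * N := by positivity
  have hbn2 : (10 : ℝ) ^ 8 * b ≤ n := by nlinarith
  have hE1 : E ≤ 11 / 1000000 * (n * N) := by
    have h1 : E ≤ (1000 + 1000 * b) * N + b * (64 / 10 * N) := by
      rw [hEdef]
      have h2 : (1000 + 1000 * (b : ℝ)) * S ≤ (1000 + 1000 * b) * N :=
        mul_le_mul_of_nonneg_left hS' (by positivity)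
      have h3 : (b : ℝ) * D ≤ b * (64 / 10 * N) := mul_le_mul_of_nonneg_left hD6 hb0.le
      linarith
    have h4 : (1000 + 1000 * (b : ℝ)) + b * (64 / 10) ≤ 11 / 1000000 * n := by
      have : (10 : ℝ) ^ 8 = 100000000 := by norm_num
      rw [this] at hbn2 hb'
      linarith
    have h5 := mul_le_mul_of_nonneg_right h4 hN0
    linarith
  have hSn : 993 / 1000 * (n * N) ≤ n * S := by
    have h1 : 993 / 1000 * N ≤ S := by linarith
    have h2 := mul_le_mul_of_nonneg_left h1 hn'.le
    linarith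
  have hβD : β ≤ 64 / 10 * N := by linarith
  have hβn : n * β ≤ 64 / 10 * (n * N) := by
    have h2 := mul_le_mul_of_nonneg_left hβD hn'.le
    linarith
  have hn16 : (10 : ℝ) ^ 16 ≤ n := by
    have : (10 : ℝ) ^ 16 = 10 ^ 8 * 10 ^ 8 := by norm_num
    rw [this]
    nlinarith
  have hβ1 : β ≤ 1 / 1000 * (n * N) := by
    have h1 : 64 / 10 * N ≤ 1 / 1000 * (n * N) := by
      have h2 : (64 / 10 : ℝ) ≤ 1 / 1000 * n := by
        have : (10 : ℝ) ^ 16 = 10000000000000000 := by norm_num
        rw [this] at hn16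
        linarith
      have h5 := mul_le_mul_of_nonneg_right h2 hN0
      linarith
    linarith
  have hB1 : B * n ≤ 1 / 10000000 * (n * N) := by
    have h1 : B * 10 ^ 8 ≤ 64 / 10 * N := by
      have h2 : B * 10 ^ 8 ≤ B * b := mul_le_mul_of_nonneg_left hb' hB0
      linarith
    have h3 : B ≤ 1 / 10000000 * N := by
      have : (10 : ℝ) ^ 8 = 100000000 := by norm_num
      rw [this] at h1
      linarith
    have h2 := mul_le_mul_of_nonneg_right h3 hn'.le
    linarith
  have hfin : 31 / 10 * (n * N) ≤ n * (D / 2) := by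
    have hD2 : n * (s + β / 2 + M) ≤ n * (D / 2) :=
      mul_le_mul_of_nonneg_left (by linarith) hn'.le
    have hnM : 0 ≤ (n : ℝ) * M := by positivity
    have e1 : n * (s + β / 2 + M) = n * s / 2 + n / 2 * (s + β) + n * M := by ring
    have e2 : R ≥ n * S - E := by
      have : S * n = n * S := mul_comm _ _
      rw [hEdef]
      linarith
    have e3 : (2 * (n : ℝ) + 1) * β = 2 * (n * β) + β := by ring
    have e4 : B * ((n : ℝ) * 1000) = 1000 * (B * n) := by ring
    have e5 : (n : ℝ) / 2 * β = (n * β) / 2 := by ring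
    have e6 : (n : ℝ) * (2 * S) = 2 * (n * S) := by ring
    have e7 : (n : ℝ) * (s + 2 / 1000 * β) = n * s + 2 / 1000 * (n * β) := by ring
    rw [e3, e4] at hB'
    rw [e5] at hG
    rw [e6, e7] at hF'
    have e8 : (n : ℝ) / 2 * (s + β) = n * s / 2 + (n * β) / 2 := by ring
    rw [e8] at hG e1
    have f1 : 22 / 10 * (R : ℝ) - β / 4 - n * M / 2 - 500 * (B * n) ≤ n * s / 2 + (n * β) / 2 -
        0 := by
      linarith only [hB', hC', hG]
    have f2 : n * S - 1000 * E - 1 / 1000 * (n * β) ≤ n * s / 2 := by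
      linarith only [hF']
    have f3 : n * S - 1000 * E - 1 / 1000 * (n * β) + (22 / 10 * (R : ℝ) - β / 4 -
        500 * (B * n)) ≤ n * (D / 2) := by
      linarith only [f1, f2, hD2, e1, hnM]
    linarith only [f3, e2, hSn, hE1, hβn, hβ1, hB1, hnN]
  have h1 : n * (31 / 10 * N) ≤ n * (D / 2) := by linarith
  exact le_of_mul_le_mul_left h1 hn'

end Core

/-! ### The hypercube -/

/-- flip a coordinate -/
def flp {n : ℕ} (u : Fin n → Bool) (a : Fin n) : Fin n → Bool := Function.update u a (!(u a))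

lemma flp_flp {n : ℕ} (u : Fin n → Bool) (a : Fin n) : flp (flp u a) a = u := by
  funext j
  by_cases h : j = a
  · subst h; simp [flp]
  · simp [flp, h]

lemma flp_self {n : ℕ} (u : Fin n → Bool) (a : Fin n) : flp u a a = !(u a) := by simp [flp]

lemma flp_of_ne {n : ℕ} (u : Fin n → Bool) {a j : Fin n} (h : j ≠ a) : flp u a j = u j := by
  simp [flp, h]

lemma flp_comm {n : ℕ} (u : Fin n → Bool) (a b : Fin n) : flp (flp u a) b = flp (flp u b) a := by
  funext j
  by_cases ha : j = a <;> by_cases hb : j = b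
  · subst ha; subst hb; rfl
  · subst ha; rw [flp_of_ne _ hb, flp_self, flp_self, flp_of_ne _ hb]
  · subst hb; rw [flp_of_ne _ ha, flp_self, flp_self, flp_of_ne _ ha]
  · rw [flp_of_ne _ hb, flp_of_ne _ ha, flp_of_ne _ ha, flp_of_ne _ hb]

lemma flp_adj {n : ℕ} (u : Fin n → Bool) (a : Fin n) : (Q n).Adj u (flp u a) := by
  change hammingDist u (flp u a) = 1
  unfold hammingDist
  rw [Finset.card_eq_one]
  refine ⟨a, ?_⟩
  ext j
  simp only [Finset.mem_filter, Finset.mem_univ, true_and, Finset.mem_singleton]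
  by_cases hj : j = a
  · subst hj; simp [flp]
  · simp [flp, hj]

lemma adj_flp {n : ℕ} {u v : Fin n → Bool} (h : (Q n).Adj u v) : ∃ a, v = flp u a := by
  have h1 : hammingDist u v = 1 := h
  unfold hammingDist at h1
  rw [Finset.card_eq_one] at h1
  obtain ⟨a, ha⟩ := h1
  refine ⟨a, ?_⟩
  funext j
  have hj : (j ∈ Finset.univ.filter fun i => u i ≠ v i) ↔ j ∈ ({a} : Finset (Fin n)) := by rw [ha]
  simp only [Finset.mem_filter, Finset.mem_univ, true_and, Finset.mem_singleton] at hj
  by_cases hja : j = a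
  · subst hja
    have := hj.2 rfl
    rw [flp_self]
    revert this
    cases u j <;> cases v j <;> simp
  · rw [flp_of_ne _ hja]
    by_contra hc
    exact hja (hj.1 (fun h => hc h.symm))

lemma flp_inj {n : ℕ} (u : Fin n → Bool) : Function.Injective (flp u) := by
  intro a b h
  by_contra hab
  have h1 := congrFun h a
  rw [flp_self, flp_of_ne _ hab] at h1
  revert h1
  cases u a <;> simp

/-- the condition of semi-saturation in terms of directions -/
lemma semi_dir {n : ℕ} {G : SimpleGraph (Fin n → Bool)} (hG : SemiSat G) (x : Fin n → Bool)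
    (i : Fin n) (h : ¬ G.Adj x (flp x i)) :
    ∃ j, G.Adj x (flp x j) ∧ G.Adj (flp x j) (flp (flp x j) i) ∧
      G.Adj (flp (flp x j) i) (flp (flp (flp x j) i) j) := by
  obtain ⟨z, w, hxz, hyw, h1, h2, h3⟩ := hG.2 x (flp x i) (flp_adj x i) h
  obtain ⟨j, rfl⟩ := adj_flp (hG.1 h3.symm)
  obtain ⟨k, hk⟩ := adj_flp (hG.1 h1)
  obtain ⟨l, hl⟩ := adj_flp (hG.1 h2.symm)
  have hij : i ≠ j := by
    rintro rfl
    exact hyw rfl
  have hik : i ≠ k := by
    rintro rfl
    apply hxz
    rw [hk, flp_flp]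
  have hli : l = i := by
    by_contra hli
    have e1 : z i = !(x i) := by rw [hk, flp_of_ne _ hik, flp_self]
    have e2 : z i = x i := by rw [hl, flp_of_ne _ (Ne.symm hli), flp_of_ne _ hij]
    rw [e1] at e2
    revert e2
    cases x i <;> simp
  subst hli
  refine ⟨j, h3.symm, ?_, ?_⟩
  · rw [← hl]; exact h2.symm
  · rw [← hl]
    have e3 : flp z j = flp x l := by
      rw [hl, flp_comm x j l, flp_flp]
    rw [e3]
    exact h1.symm

open Classical in
lemma sum_deg {n : ℕ} {G : SimpleGraph (Fin n → Bool)} (hG : G ≤ Q n) :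
    ∑ v, deg (fun u i => G.Adj u (flp u i)) v = 2 * G.edgeSet.ncard := by
  have h1 : ∀ v, deg (fun u i => G.Adj u (flp u i)) v = G.degree v := by
    intro v
    unfold deg
    rw [← SimpleGraph.card_neighborFinset_eq_degree,
      ← Finset.card_image_of_injective _ (flp_inj v)]
    congr 1
    ext u
    simp only [Finset.mem_image, Finset.mem_filter, Finset.mem_univ, true_and,
      SimpleGraph.mem_neighborFinset]
    constructor
    · rintro ⟨a, ha, rfl⟩; exact ha
    · intro hu
      obtain ⟨a, rfl⟩ := adj_flp (hG hu)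
      exact ⟨a, hu, rfl⟩
  simp only [h1]
  rw [SimpleGraph.sum_degrees_eq_twice_card_edges, Set.ncard_eq_toFinset_card']
  rfl

/-! ### The construction from two Hamming codes -/

/-- the syndrome of a 0/1 vector with respect to the columns `c` -/
def synd {n k : ℕ} (c : Fin n → (Fin k → ZMod 2)) (v : Fin n → Bool) : Fin k → ZMod 2 :=
  ∑ i, if v i then c i else 0

lemma hadd {k : ℕ} (h : Fin k → ZMod 2) : h + h = 0 := by
  funext j
  exact CharTwo.add_self_eq_zero (h j)

lemma synd_flp {n k : ℕ} (c : Fin n → (Fin k → ZMod 2)) (v : Fin n → Bool) (i : Fin n) :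
    synd c (flp v i) = synd c v + c i := by
  unfold synd
  rw [← Finset.add_sum_erase univ _ (Finset.mem_univ i),
    ← Finset.add_sum_erase univ (fun j => if v j then c j else 0) (Finset.mem_univ i)]
  have h1 : ∑ j ∈ univ.erase i, (if flp v i j then c j else 0) =
      ∑ j ∈ univ.erase i, (if v j then c j else 0) := by
    apply Finset.sum_congr rfl
    intro j hj
    rw [flp_of_ne _ (Finset.ne_of_mem_erase hj)]
  rw [h1, flp_self]
  cases v i
  · simp only [Bool.not_false, if_true, Bool.false_eq_true, if_false]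
    abel
  · simp only [Bool.not_true, if_true, Bool.false_eq_true, if_false]
    rw [add_right_comm, hadd]

lemma card_code {n k : ℕ} (c : Fin n → (Fin k → ZMod 2)) (hc : ∀ h, h ≠ 0 → ∃ i, c i = h) :
    2 ^ k * (univ.filter fun v : Fin n → Bool => synd c v = 0).card = 2 ^ n := by
  have h1 : ∀ h : Fin k → ZMod 2, (univ.filter fun v : Fin n → Bool => synd c v = h).card =
      (univ.filter fun v : Fin n → Bool => synd c v = 0).card := by
    intro h
    by_cases hh : h = 0
    · rw [hh]
    · obtain ⟨i, hi⟩ := hc h hh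
      rw [card_filter, card_filter,
        ← sum_flip (f := flp) flp_flp i (fun v => if synd c v = h then 1 else 0)]
      apply Finset.sum_congr rfl
      intro v _
      rw [synd_flp, hi]
      simp only [add_eq_right]
  have h2 := Finset.card_eq_sum_card_fiberwise (f := fun v : Fin n → Bool => synd c v)
    (s := univ) (t := univ) (fun _ _ => Finset.mem_coe.2 (Finset.mem_univ _))
  simp only [h1, Finset.sum_const, smul_eq_mul] at h2
  have h3 : (univ : Finset (Fin k → ZMod 2)).card = 2 ^ k := by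
    simp
  have h4 : (univ : Finset (Fin n → Bool)).card = 2 ^ n := by simp
  rw [h3, h4] at h2
  exact h2.symm

open Classical in
lemma deg_le_two {V : Type} {n : ℕ} (g : V → Fin n → Prop) (v : V) (a b : Fin n)
    (h : ∀ i, g v i → i ∈ ({a, b} : Finset (Fin n))) : deg g v ≤ 2 := by
  unfold deg
  refine (card_le_card (t := ({a, b} : Finset (Fin n))) ?_).trans card_le_two
  intro i hi
  rw [mem_filter] at hi
  exact h i hi.2

lemma upper (k : ℕ) : ∃ G : SimpleGraph (Fin (2 * (2 ^ k - 1)) → Bool),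
    SemiSat G ∧ G.edgeSet.ncard ≤ 3 * 2 ^ (2 * (2 ^ k - 1)) := by
  classical
  set n := 2 * (2 ^ k - 1) with hn
  let N := {h : Fin k → ZMod 2 // h ≠ 0}
  have hN : Fintype.card N = 2 ^ k - 1 := by
    have : Fintype.card N = Fintype.card (Fin k → ZMod 2) - 1 := by
      rw [Fintype.card_subtype_compl, Fintype.card_subtype_eq]
    rw [this]; simp
  have hcard : Fintype.card (Fin n) = Fintype.card (N ⊕ N) := by
    rw [Fintype.card_fin, Fintype.card_sum, hN]; omega
  let e : Fin n ≃ N ⊕ N := Fintype.equivOfCardEq hcard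
  let c1 : Fin n → (Fin k → ZMod 2) := fun i => Sum.elim (fun h => h.1) (fun _ => 0) (e i)
  let c2 : Fin n → (Fin k → ZMod 2) := fun i => Sum.elim (fun _ => 0) (fun h => h.1) (e i)
  have hc1l : ∀ h : N, c1 (e.symm (Sum.inl h)) = h.1 := fun h => by simp [c1]
  have hc1r : ∀ h : N, c1 (e.symm (Sum.inr h)) = 0 := fun h => by simp [c1]
  have hc2l : ∀ h : N, c2 (e.symm (Sum.inl h)) = 0 := fun h => by simp [c2]
  have hc2r : ∀ h : N, c2 (e.symm (Sum.inr h)) = h.1 := fun h => by simp [c2]
  let Z : Finset (Fin n → Bool) := univ.filter fun v => synd c1 v = 0 ∨ synd c2 v = 0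
  have hZ : ∀ v, v ∈ Z ↔ (synd c1 v = 0 ∨ synd c2 v = 0) := fun v => by simp [Z]
  let G : SimpleGraph (Fin n → Bool) :=
    { Adj := fun u v => (Q n).Adj u v ∧ (u ∈ Z ∨ v ∈ Z)
      symm := ⟨fun u v h => ⟨h.1.symm, h.2.symm⟩⟩
      loopless := ⟨fun u h => (Q n).loopless.irrefl u h.1⟩ }
  have hGQ : G ≤ Q n := fun u v h => h.1
  refine ⟨G, ⟨hGQ, ?_⟩, ?_⟩
  · intro x y hxy hnot
    obtain ⟨i, rfl⟩ := adj_flp hxy
    have hx : x ∉ Z := fun h => hnot ⟨hxy, Or.inl h⟩
    rw [hZ, not_or] at hx
    -- a direction of the other half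
    obtain ⟨j, hij, hj1, hj2⟩ : ∃ j, i ≠ j ∧ flp x j ∈ Z ∧ flp (flp x i) j ∈ Z := by
      rcases hei : e i with h | h
      · have hi : i = e.symm (Sum.inl h) := by rw [← hei, Equiv.symm_apply_apply]
        refine ⟨e.symm (Sum.inr ⟨synd c2 x, hx.2⟩), ?_, ?_, ?_⟩
        · rw [hi]
          intro hc
          have := e.symm.injective hc
          simp at this
        · rw [hZ, synd_flp c2, hc2r, hadd]; exact Or.inr rfl
        · rw [hZ, synd_flp c2, hc2r, synd_flp c2, hi, hc2l, add_zero, hadd]; exact Or.inr rfl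
      · have hi : i = e.symm (Sum.inr h) := by rw [← hei, Equiv.symm_apply_apply]
        refine ⟨e.symm (Sum.inl ⟨synd c1 x, hx.1⟩), ?_, ?_, ?_⟩
        · rw [hi]
          intro hc
          have := e.symm.injective hc
          simp at this
        · rw [hZ, synd_flp c1, hc1l, hadd]; exact Or.inl rfl
        · rw [hZ, synd_flp c1, hc1l, synd_flp c1, hi, hc1r, add_zero, hadd]; exact Or.inl rfl
    refine ⟨flp (flp x i) j, flp x j, ?_, ?_, ?_, ?_, ?_⟩
    · intro hc
      have h1 := congrFun hc i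
      rw [flp_of_ne _ hij, flp_self] at h1
      revert h1
      cases x i <;> simp
    · intro hc
      exact hij (flp_inj x hc)
    · exact ⟨flp_adj _ _, Or.inr hj2⟩
    · refine ⟨?_, Or.inl hj2⟩
      rw [flp_comm]
      exact (flp_adj _ _).symm
    · exact ⟨(flp_adj _ _).symm, Or.inl hj1⟩
  · have hsum := sum_deg hGQ
    have hdeg : ∀ v, deg (fun u i => G.Adj u (flp u i)) v ≤
        2 + n * (if synd c1 v = 0 then 1 else 0) + n * (if synd c2 v = 0 then 1 else 0) := by
      intro v
      by_cases hv : v ∈ Z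
      · have h1 : deg (fun u i => G.Adj u (flp u i)) v ≤ n := deg_le v
        rw [hZ] at hv
        rcases hv with hv | hv
        · rw [if_pos hv]; omega
        · rw [if_pos hv]; omega
      · have hv' := hv
        rw [hZ, not_or] at hv'
        have h2 : ∀ i, G.Adj v (flp v i) → i ∈
            ({e.symm (Sum.inl ⟨synd c1 v, hv'.1⟩), e.symm (Sum.inr ⟨synd c2 v, hv'.2⟩)} :
              Finset (Fin n)) := by
          intro i hi
          have h3 : flp v i ∈ Z := hi.2.resolve_left hv
          rw [hZ, synd_flp, synd_flp] at h3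
          rw [Finset.mem_insert, Finset.mem_singleton, Equiv.eq_symm_apply, Equiv.eq_symm_apply]
          rcases hei : e i with h | h
          · left
            have hi' : i = e.symm (Sum.inl h) := by rw [← hei, Equiv.symm_apply_apply]
            rw [hi', hc1l, hc2l, add_zero] at h3
            have h4 := h3.resolve_right hv'.2
            have h5 : h.1 = synd c1 v := by
              have : synd c1 v + (synd c1 v + h.1) = synd c1 v := by rw [h4, add_zero]
              rwa [← add_assoc, hadd, zero_add] at this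
            congr 1
            exact Subtype.ext h5
          · right
            have hi' : i = e.symm (Sum.inr h) := by rw [← hei, Equiv.symm_apply_apply]
            rw [hi', hc1r, hc2r, add_zero] at h3
            have h4 := h3.resolve_left hv'.1
            have h5 : h.1 = synd c2 v := by
              have : synd c2 v + (synd c2 v + h.1) = synd c2 v := by rw [h4, add_zero]
              rwa [← add_assoc, hadd, zero_add] at this
            congr 1
            exact Subtype.ext h5
        have h6 : deg (fun u i => G.Adj u (flp u i)) v ≤ 2 := by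
          exact deg_le_two _ _ _ _ h2
        omega
    have h7 := Finset.sum_le_sum (s := univ) (fun v _ => hdeg v)
    rw [hsum, Finset.sum_add_distrib, Finset.sum_add_distrib, ← Finset.mul_sum, ← Finset.mul_sum,
      ← card_filter, ← card_filter, Finset.sum_const, smul_eq_mul] at h7
    have h8 := card_code c1 (fun h hh => ⟨e.symm (Sum.inl ⟨h, hh⟩), hc1l ⟨h, hh⟩⟩)
    have h9 := card_code c2 (fun h hh => ⟨e.symm (Sum.inr ⟨h, hh⟩), hc2r ⟨h, hh⟩⟩)
    have h10 : (univ : Finset (Fin n → Bool)).card = 2 ^ n := by simp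
    rw [h10] at h7
    have h11 : n ≤ 2 * 2 ^ k := by omega
    have h12 : n * (univ.filter fun v : Fin n → Bool => synd c1 v = 0).card ≤ 2 * 2 ^ n :=
      calc n * (univ.filter fun v : Fin n → Bool => synd c1 v = 0).card
          ≤ 2 * 2 ^ k * (univ.filter fun v : Fin n → Bool => synd c1 v = 0).card :=
            Nat.mul_le_mul_right _ h11
        _ = 2 * (2 ^ k * (univ.filter fun v : Fin n → Bool => synd c1 v = 0).card) := by ring
        _ = 2 * 2 ^ n := by rw [h8]
    have h13 : n * (univ.filter fun v : Fin n → Bool => synd c2 v = 0).card ≤ 2 * 2 ^ n :=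
      calc n * (univ.filter fun v : Fin n → Bool => synd c2 v = 0).card
          ≤ 2 * 2 ^ k * (univ.filter fun v : Fin n → Bool => synd c2 v = 0).card :=
            Nat.mul_le_mul_right _ h11
        _ = 2 * (2 ^ k * (univ.filter fun v : Fin n → Bool => synd c2 v = 0).card) := by ring
        _ = 2 * 2 ^ n := by rw [h9]
    linarith

lemma sSat_mem (n : ℕ) : ∃ G : SimpleGraph (Fin n → Bool), SemiSat G ∧ G.edgeSet.ncard = sSat n := by
  have hne : {m : ℕ | ∃ G : SimpleGraph (Fin n → Bool), SemiSat G ∧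
      G.edgeSet.ncard = m}.Nonempty :=
    ⟨(Q n).edgeSet.ncard, Q n, ⟨le_refl _, fun x y h h' => absurd h h'⟩, rfl⟩
  exact Nat.sInf_mem hne


/-! ### Saturated graphs -/

/-- `H` contains a 4-cycle (a copy of `Q_2`). -/
def HasC4 {n : ℕ} (H : SimpleGraph (Fin n → Bool)) : Prop :=
  ∃ x y z w, x ≠ z ∧ y ≠ w ∧ H.Adj x y ∧ H.Adj y z ∧ H.Adj z w ∧ H.Adj w x

/-- `G` is `(Q_n, Q_2)`-saturated: a subgraph of `Q_n` without 4-cycle such that the addition of any
edge of `Q_n` which is not in `G` creates a 4-cycle. -/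
def Sat {n : ℕ} (G : SimpleGraph (Fin n → Bool)) : Prop :=
  G ≤ Q n ∧ ¬ HasC4 G ∧ ∀ x y, (Q n).Adj x y → ¬ G.Adj x y → HasC4 (G ⊔ SimpleGraph.edge x y)

/-- The number `sat(Q_n, Q_2)`: the least number of edges of a `(Q_n, Q_2)`-saturated graph. -/
noncomputable def satNum (n : ℕ) : ℕ :=
  sInf {m : ℕ | ∃ G : SimpleGraph (Fin n → Bool), Sat G ∧ G.edgeSet.ncard = m}

lemma rot {n : ℕ} {G : SimpleGraph (Fin n → Bool)} {x y a b c d : Fin n → Bool}
    (hac : a ≠ c) (hbd : b ≠ d) (hab : a = x ∧ b = y ∨ a = y ∧ b = x) (hbc' : b ≠ c) (hda' : d ≠ a)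
    (hbc : G.Adj b c ∨ (b = x ∧ c = y ∨ b = y ∧ c = x))
    (hcd : G.Adj c d ∨ (c = x ∧ d = y ∨ c = y ∧ d = x))
    (hda : G.Adj d a ∨ (d = x ∧ a = y ∨ d = y ∧ a = x)) :
    ∃ z w, x ≠ z ∧ y ≠ w ∧ G.Adj y z ∧ G.Adj z w ∧ G.Adj w x := by
  rcases hab with ⟨rfl, rfl⟩ | ⟨rfl, rfl⟩
  · refine ⟨c, d, hac, hbd, ?_, ?_, ?_⟩
    · rcases hbc with h | ⟨h1, h2⟩ | ⟨h1, h2⟩
      · exact h
      · exact absurd h2.symm hbc'
      · exact absurd h2.symm hac
    · rcases hcd with h | ⟨h1, h2⟩ | ⟨h1, h2⟩
      · exact h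
      · exact absurd h1.symm hac
      · exact absurd h1.symm hbc'
    · rcases hda with h | ⟨h1, h2⟩ | ⟨h1, h2⟩
      · exact h
      · exact absurd h1 hda'
      · exact absurd h1.symm hbd
  · refine ⟨d, c, hbd, hac, ?_, ?_, ?_⟩
    · rcases hda with h | ⟨h1, h2⟩ | ⟨h1, h2⟩
      · exact h.symm
      · exact absurd h1.symm hbd
      · exact absurd h1 hda'
    · rcases hcd with h | ⟨h1, h2⟩ | ⟨h1, h2⟩
      · exact h.symm
      · exact absurd h1.symm hbc'
      · exact absurd h1.symm hac
    · rcases hbc with h | ⟨h1, h2⟩ | ⟨h1, h2⟩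
      · exact h.symm
      · exact absurd h2.symm hac
      · exact absurd h2.symm hbc'

lemma SemiSat_of_Sat {n : ℕ} {G : SimpleGraph (Fin n → Bool)} (hG : Sat G) : SemiSat G := by
  refine ⟨hG.1, fun x y hxy hn => ?_⟩
  obtain ⟨a, b, c, d, hac, hbd, h1, h2, h3, h4⟩ := hG.2.2 x y hxy hn
  have key : ∀ p q, (G ⊔ SimpleGraph.edge x y).Adj p q →
      (G.Adj p q ∨ (p = x ∧ q = y ∨ p = y ∧ q = x)) := by
    intro p q h
    rw [SimpleGraph.sup_adj, SimpleGraph.edge_adj] at h
    tauto
  have k1 := key _ _ h1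
  have k2 := key _ _ h2
  have k3 := key _ _ h3
  have k4 := key _ _ h4
  rcases k1 with g1 | e1
  · rcases k2 with g2 | e2
    · rcases k3 with g3 | e3
      · rcases k4 with g4 | e4
        · exact absurd ⟨a, b, c, d, hac, hbd, g1, g2, g3, g4⟩ hG.2.1
        · exact rot hbd.symm hac e4 h1.ne h3.ne (Or.inl g1) (Or.inl g2) (Or.inl g3)
      · exact rot hac.symm hbd.symm e3 h4.ne h2.ne k4 (Or.inl g1) (Or.inl g2)
    · exact rot hbd hac.symm e2 h3.ne h1.ne k3 k4 (Or.inl g1)
  · exact rot hac hbd e1 h2.ne h4.ne k2 k3 k4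

lemma sat_exists (n : ℕ) : ∃ G : SimpleGraph (Fin n → Bool), Sat G := by
  classical
  have hfin := Set.toFinite {H : SimpleGraph (Fin n → Bool) | H ≤ Q n ∧ ¬ HasC4 H}
  obtain ⟨H, hH⟩ := hfin.exists_maximal ⟨⊥, bot_le, by
    rintro ⟨x, y, z, w, _, _, h, _⟩
    exact h⟩
  refine ⟨H, hH.prop.1, hH.prop.2, fun x y hxy hn => ?_⟩
  by_contra hc
  have hmem : (H ⊔ SimpleGraph.edge x y) ∈
      {H : SimpleGraph (Fin n → Bool) | H ≤ Q n ∧ ¬ HasC4 H} := by
    refine ⟨sup_le hH.prop.1 ?_, hc⟩
    intro p q hpq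
    rw [SimpleGraph.edge_adj] at hpq
    rcases hpq.1 with ⟨rfl, rfl⟩ | ⟨rfl, rfl⟩
    · exact hxy
    · exact hxy.symm
  have hle := hH.le_of_ge hmem le_sup_left
  apply hn
  apply hle
  rw [SimpleGraph.sup_adj, SimpleGraph.edge_adj]
  exact Or.inr ⟨Or.inl ⟨rfl, rfl⟩, hxy.ne⟩

lemma satNum_mem (n : ℕ) : ∃ G : SimpleGraph (Fin n → Bool), Sat G ∧ G.edgeSet.ncard = satNum n := by
  have hne : {m : ℕ | ∃ G : SimpleGraph (Fin n → Bool), Sat G ∧
      G.edgeSet.ncard = m}.Nonempty := by
    obtain ⟨G, hG⟩ := sat_exists n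
    exact ⟨_, G, hG, rfl⟩
  exact Nat.sInf_mem hne

lemma sat_lower (n : ℕ) (hn : 10 ^ 16 ≤ n) : 31 / 10 * (2 : ℝ) ^ n ≤ satNum n := by
  obtain ⟨G, hG, hcard⟩ := satNum_mem n
  have hS := SemiSat_of_Sat hG
  have hb : 10 ^ 8 ≤ Nat.sqrt n := by
    rw [Nat.le_sqrt']
    calc (10 ^ 8) ^ 2 = 10 ^ 16 := by norm_num
      _ ≤ n := hn
  have hsum := sum_deg hG.1
  have hsf : ∀ (u : Fin n → Bool) (i j : Fin n), i ≠ j → G.Adj u (flp u i) → G.Adj u (flp u j) →
      G.Adj (flp u i) (flp (flp u i) j) → G.Adj (flp u j) (flp (flp u j) i) → False := by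
    intro u i j hij h1 h2 h3 h4
    apply hG.2.1
    refine ⟨u, flp u i, flp (flp u i) j, flp u j, ?_, ?_, h1, h3, ?_, h2.symm⟩
    · intro hc
      have h1 := congrFun hc i
      rw [flp_of_ne _ hij, flp_self] at h1
      revert h1
      cases u i <;> simp
    · intro hc
      exact hij (flp_inj u hc)
    · rw [flp_comm]; exact h4.symm
  have hc := core2 (f := flp) (g := fun u i => G.Adj u (flp u i)) hb (Nat.sqrt_le n)
      flp_flp flp_comm (fun v i => by rw [flp_flp]; exact G.adj_comm _ _) (semi_dir hS) hsf rfl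
  have hcard' : (Fintype.card (Fin n → Bool) : ℝ) = 2 ^ n := by simp
  have hD : (∑ v, (deg (fun u i => G.Adj u (flp u i)) v : ℝ)) = 2 * (G.edgeSet.ncard : ℝ) := by
    exact_mod_cast hsum
  rw [hcard', hD, hcard] at hc
  linarith

/-- (1) `sat(Q_n, Q_2) ≥ 3.1 * 2 ^ n` for all large `n`, (2) `s-sat(Q_n, Q_2) ≤ 3 * 2 ^ n` for all
`n = 2 (2 ^ k - 1)`, so (3) `s-sat(Q_n, Q_2) < sat(Q_n, Q_2)` for infinitely many `n`. -/
theorem result :
    (∀ n : ℕ, 10 ^ 16 ≤ n → 31 / 10 * (2 : ℝ) ^ n ≤ satNum n) ∧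
    (∀ k : ℕ, sSat (2 * (2 ^ k - 1)) ≤ 3 * 2 ^ (2 * (2 ^ k - 1))) ∧
    {n : ℕ | sSat n < satNum n}.Infinite := by
  have h2 : ∀ k : ℕ, sSat (2 * (2 ^ k - 1)) ≤ 3 * 2 ^ (2 * (2 ^ k - 1)) := by
    intro k
    obtain ⟨G, hG, hc⟩ := upper k
    have hmem : G.edgeSet.ncard ∈ {m : ℕ | ∃ G : SimpleGraph (Fin (2 * (2 ^ k - 1)) → Bool),
        SemiSat G ∧ G.edgeSet.ncard = m} := ⟨G, hG, rfl⟩
    exact (Nat.sInf_le hmem).trans hc
  refine ⟨sat_lower, h2, ?_⟩
  apply Set.infinite_of_forall_exists_gt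
  intro a
  set k := a + 10 ^ 16 with hk
  have hk2 : k < 2 ^ k := Nat.lt_two_pow_self
  refine ⟨2 * (2 ^ k - 1), ?_, by omega⟩
  have h3 := sat_lower (2 * (2 ^ k - 1)) (by omega)
  have h4 := h2 k
  have h5 : (0 : ℝ) < 2 ^ (2 * (2 ^ k - 1)) := by positivity
  have h6 : (sSat (2 * (2 ^ k - 1)) : ℝ) ≤ 3 * 2 ^ (2 * (2 ^ k - 1)) := by exact_mod_cast h4
  have h7 : (sSat (2 * (2 ^ k - 1)) : ℝ) < (satNum (2 * (2 ^ k - 1)) : ℝ) := by linarith
  exact_mod_cast h7

end Pool.Agent.Results.MP_71830d_co.Separation
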